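import Pool.Agent.H89.GT.Norm

/-!
# Elements with even valuations outside two marked primes
-/

set_option autoImplicit false
set_option linter.all false

open Polynomial IsDedekindDomain WithZero
open scoped Classical

namespace Pool.Agent.H89.GT

open Pool.Agent.H89.GB
open Pool.Agent.H89.GM
open Pool.Agent.H89.KT (root_of norm_gal norm_pw pw_hom)
open Pool.Agent.Y160.SE (IsPw)
open Pool.Agent.Q45.TT (val_under ram_ne_zero exists_above sum_ef tf_of)

section base

variable {O : Type} [CommRing O] [IsDedekindDomain O] {f : O[X]} {τ τ' : O} {r r' : ℕ}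
  {Q : Fin (r + 1) → O[X]} {Q' : Fin (r' + 1) → O[X]}
  {K0 L0 A0 R0 : Type} [Field K0] [Field L0] [Algebra O K0] [Algebra O L0]
  [Algebra K0 L0] [IsScalarTower O K0 L0] [CommRing A0] [IsDedekindDomain A0] [CommRing R0]
  [IsDedekindDomain R0] [Algebra O A0] [Algebra O R0] [Algebra A0 K0] [Algebra R0 L0]
  [IsScalarTower O A0 K0] [IsScalarTower O R0 L0] [IsFractionRing A0 K0] [IsFractionRing R0 L0]
  [IsIntegralClosure R0 O L0] [Algebra A0 R0] [IsScalarTower O A0 R0] [Module.Finite A0 R0]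
  [Module.IsTorsionFree A0 R0]

/-- The sign of the value of a factor. -/
noncomputable def sg1 {O : Type} [CommRing O] (G : O[X]) {R : Type} [CommRing R] [Algebra O R]
    (θ : R) : R := (-1) ^ G.natDegree * aeval θ G

theorem Pl.sg_ne {θ : R0} {q : Fin (r + 1) → HeightOneSpectrum R0} (P : Pl τ Q A0 R0 L0 θ q)
    (i : Fin (r + 1)) : algebraMap R0 L0 (sg1 (Q i) θ) ≠ 0 := by
  unfold sg1
  rw [map_mul, map_pow, map_neg, map_one]
  exact mul_ne_zero (pow_ne_zero _ (neg_ne_zero.2 one_ne_zero)) (P.g_ne i)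

theorem val_sg (w : HeightOneSpectrum R0) (G : O[X]) (θ : R0) :
    w.valuation L0 (algebraMap R0 L0 (sg1 G θ)) = w.valuation L0 (algebraMap R0 L0 (aeval θ G)) := by
  unfold sg1
  rw [map_mul, map_pow, map_neg, map_one, map_mul, map_pow, Valuation.map_neg, map_one, one_pow,
    one_mul]

/-- The correction of the valuations at the places over a marked prime. -/
theorem Pl.correct (hf : Pol 2 f) (hirr : Irreducible (fK f K0)) (hsep : (fK f K0).Separable)
    {θ : R0} (hθ : aeval (algebraMap R0 L0 θ) (fK f K0) = 0)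
    (htop : IntermediateField.adjoin K0 {algebraMap R0 L0 θ} = ⊤)
    {q : Fin (r + 1) → HeightOneSpectrum R0} (P : Pl τ Q A0 R0 L0 θ q) (hM : Marked f τ Q A0)
    {x : L0} (hx : x ≠ 0) :
    ∃ (e : Fin (r + 1) → ℕ) (E : ℕ), (∏ i, algebraMap R0 L0 (sg1 (Q i) θ) ^ e i) ≠ 0 ∧
      (∏ i, algebraMap R0 L0 (sg1 (Q i) θ) ^ e i) =
        (-1) ^ E * ∏ i, algebraMap R0 L0 (aeval θ (Q i)) ^ e i ∧
      Algebra.norm K0 (∏ i, algebraMap R0 L0 (sg1 (Q i) θ) ^ e i) = algebraMap O K0 τ ^ E ∧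
      (∀ w : HeightOneSpectrum R0, algebraMap O R0 τ ∈ w.asIdeal →
        IsPw 2 (w.valuation L0 (x * ∏ i, algebraMap R0 L0 (sg1 (Q i) θ) ^ e i))) ∧
      (∀ w : HeightOneSpectrum R0, algebraMap O R0 τ ∉ w.asIdeal →
        w.valuation L0 (∏ i, algebraMap R0 L0 (sg1 (Q i) θ) ^ e i) = 1) := by
  have hm := fK_monic hf K0
  haveI : FiniteDimensional K0 L0 := Pool.Agent.Q45.TW.fin_of hm hθ htop
  have hxv : ∀ i, (q i).valuation L0 x ≠ 0 := fun i => (Valuation.ne_zero_iff _).2 hx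
  choose e he using fun i => exists_exp two_ne_zero (hxv i)
  refine ⟨e, ∑ i, (Q i).natDegree * e i, ?_, ?_, ?_, ?_, ?_⟩
  · rw [Finset.prod_ne_zero_iff]
    exact fun i _ => pow_ne_zero _ (P.sg_ne i)
  · rw [← Finset.prod_pow_eq_pow_sum, ← Finset.prod_mul_distrib]
    refine Finset.prod_congr rfl fun i _ => ?_
    unfold sg1
    rw [map_mul, map_pow, map_neg, map_one, mul_pow, ← pow_mul]
  · rw [map_prod, ← Finset.prod_pow_eq_pow_sum]
    refine Finset.prod_congr rfl fun i _ => ?_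
    have h1 := norm_dvd (algebraMap O K0 τ) hm hirr hsep hθ htop
      (b := (Q i).map (algebraMap O K0)) ((hM.monic i).map _) (by
        have h1 : Q i ∣ f - C τ := by
          rw [← hM.prod]
          exact Finset.dvd_prod_of_mem _ (Finset.mem_univ i)
        have h3 := Polynomial.map_dvd (algebraMap O K0) h1
        rwa [Polynomial.map_sub, map_C] at h3)
    rw [(hM.monic i).natDegree_map, aeval_map_algebraMap, aeval_algebraMap_apply] at h1
    unfold sg1
    rw [map_pow, map_mul (algebraMap R0 L0), map_pow (algebraMap R0 L0), map_neg, map_one, h1,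
      ← pow_mul]
  · intro w hw
    obtain ⟨i, rfl⟩ := P.v3 w hw
    rw [map_mul, map_prod, Finset.prod_eq_single i, map_pow, val_sg, P.v1, if_pos rfl]
    · exact he i
    · intro j _ hj
      rw [map_pow, val_sg, P.v1, if_neg hj, one_pow]
    · intro h
      exact absurd (Finset.mem_univ i) h
  · intro w hw
    rw [map_prod]
    refine Finset.prod_eq_one fun i _ => ?_
    rw [map_pow, val_sg, P.v4 w hw, one_pow]

/-- The valuation of a marked prime. -/
theorem val_tau (hM : Marked f τ Q A0) (v : HeightOneSpectrum A0)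
    (hv : v.asIdeal = Ideal.span {algebraMap O A0 τ}) :
    v.valuation K0 (algebraMap O K0 τ) = exp (-1 : ℤ) := by
  rw [IsScalarTower.algebraMap_apply O A0 K0, v.valuation_of_algebraMap]
  exact v.intValuation_singleton hM.prime.ne_zero hv

theorem exists_v (hM : Marked f τ Q A0) : ∃ v : HeightOneSpectrum A0,
    v.asIdeal = Ideal.span {algebraMap O A0 τ} :=
  ⟨⟨Ideal.span {algebraMap O A0 τ}, (Ideal.span_singleton_prime hM.prime.ne_zero).2 hM.prime,
    fun h => hM.prime.ne_zero (Ideal.span_singleton_eq_bot.1 h)⟩, rfl⟩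

/-- **Elements with even valuations outside the two marked primes.** -/
theorem base_two (hf : Pol 2 f) (htriv : Triv 2 f K0) {θ : R0}
    (hθ : aeval (algebraMap R0 L0 θ) (fK f K0) = 0)
    (htop : IntermediateField.adjoin K0 {algebraMap R0 L0 θ} = ⊤)
    (hirr : Irreducible (fK f K0)) (hsep : (fK f K0).Separable)
    (hcomp : ∀ a : A0, algebraMap K0 L0 (algebraMap A0 K0 a) = algebraMap R0 L0 (algebraMap A0 R0 a))
    (hM : Marked f τ Q A0) (hM' : Marked f τ' Q' A0)
    (hcop : IsCoprime (algebraMap O A0 τ) (algebraMap O A0 τ'))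
    {q : Fin (r + 1) → HeightOneSpectrum R0} (P : Pl τ Q A0 R0 L0 θ q)
    {q' : Fin (r' + 1) → HeightOneSpectrum R0} (P' : Pl τ' Q' A0 R0 L0 θ q')
    {x : L0} (hx : x ≠ 0) {c : K0} (hc : Algebra.norm K0 x = c ^ 2)
    (hev : ∀ w : HeightOneSpectrum R0, algebraMap O R0 τ ∉ w.asIdeal →
      algebraMap O R0 τ' ∉ w.asIdeal → IsPw 2 (w.valuation L0 x)) :
    ∃ (e : Fin (r + 1) → ℕ) (e' : Fin (r' + 1) → ℕ) (y : L0), y ≠ 0 ∧
      x = (∏ i, algebraMap R0 L0 (aeval θ (Q i)) ^ e i) *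
        (∏ i, algebraMap R0 L0 (aeval θ (Q' i)) ^ e' i) * y ^ 2 := by
  letI : Algebra A0 L0 := ((algebraMap K0 L0).comp (algebraMap A0 K0)).toAlgebra
  haveI : IsScalarTower A0 K0 L0 := IsScalarTower.of_algebraMap_eq fun x => rfl
  haveI : IsScalarTower A0 R0 L0 := IsScalarTower.of_algebraMap_eq fun x => hcomp x
  have hm := fK_monic hf K0
  haveI : FiniteDimensional K0 L0 := Pool.Agent.Q45.TW.fin_of hm hθ htop
  obtain ⟨e, E, h0, h1, h2, h3, h4⟩ := P.correct hf hirr hsep hθ htop hM hx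
  obtain ⟨e', E', h0', h1', h2', h3', h4'⟩ := P'.correct hf hirr hsep hθ htop hM' hx
  set G : L0 := ∏ i, algebraMap R0 L0 (sg1 (Q i) θ) ^ e i with hG
  set G' : L0 := ∏ i, algebraMap R0 L0 (sg1 (Q' i) θ) ^ e' i with hG'
  have hxG : x * G * G' ≠ 0 := mul_ne_zero (mul_ne_zero hx h0) h0'
  have hevw : ∀ w : HeightOneSpectrum R0, IsPw 2 (w.valuation L0 (x * G * G')) := by
    intro w
    by_cases hw : algebraMap O R0 τ ∈ w.asIdeal
    · rw [map_mul, h4' w (not_mem_of_cop hcop w hw), mul_one]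
      exact h3 w hw
    · by_cases hw' : algebraMap O R0 τ' ∈ w.asIdeal
      · rw [mul_right_comm, map_mul, h4 w hw, mul_one]
        exact h3' w hw'
      · rw [map_mul, map_mul, h4 w hw, h4' w hw', mul_one, mul_one]
        exact hev w hw hw'
  have hc0 : c ≠ 0 := by
    rintro rfl
    rw [zero_pow two_ne_zero] at hc
    exact (Algebra.norm_ne_zero_iff).2 hx hc
  have hno : Algebra.norm K0 (x * G * G') =
      c ^ 2 * algebraMap O K0 τ ^ E * algebraMap O K0 τ' ^ E' := by
    rw [map_mul, map_mul, hc, h2, h2']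
  -- the exponents are even
  obtain ⟨v, hv⟩ := exists_v hM
  obtain ⟨v', hv'⟩ := exists_v hM'
  have hvτ := val_tau (K0 := K0) hM v hv
  have hv'τ := val_tau (K0 := K0) hM' v' hv'
  have hnm : ∀ (v : HeightOneSpectrum A0) (a b : O), algebraMap O A0 a ∈ v.asIdeal →
      IsCoprime (algebraMap O A0 a) (algebraMap O A0 b) →
      v.valuation K0 (algebraMap O K0 b) = 1 := by
    intro v a b ha hab
    rw [IsScalarTower.algebraMap_apply O A0 K0]
    refine val_one fun hb => ?_
    obtain ⟨x, y, hxy⟩ := hab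
    refine v.isPrime.ne_top ((Ideal.eq_top_iff_one _).2 ?_)
    rw [← hxy]
    exact v.asIdeal.add_mem (Ideal.mul_mem_left _ _ ha) (Ideal.mul_mem_left _ _ hb)
  have hvτ' : v.valuation K0 (algebraMap O K0 τ') = 1 :=
    hnm v τ τ' (by rw [hv]; exact Ideal.mem_span_singleton_self _) hcop
  have hv'τ' : v'.valuation K0 (algebraMap O K0 τ) = 1 :=
    hnm v' τ' τ (by rw [hv']; exact Ideal.mem_span_singleton_self _) hcop.symm
  have hE : 2 ∣ E := by
    have h5 := norm_pw (A := A0) (R := R0) (K := K0) (L := L0) two_ne_zero hxG hevw v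
    rw [hno, map_mul, map_mul, map_pow, map_pow, map_pow, hvτ, hvτ', one_pow, mul_one, mul_comm] at h5
    exact dvd_exp two_ne_zero (IsPw.of_mul ((Valuation.ne_zero_iff _).2 hc0) h5)
  have hE' : 2 ∣ E' := by
    have h5 := norm_pw (A := A0) (R := R0) (K := K0) (L := L0) two_ne_zero hxG hevw v'
    rw [hno, map_mul, map_mul, map_pow, map_pow, map_pow, hv'τ, hv'τ', one_pow, mul_one,
      mul_comm] at h5
    exact dvd_exp two_ne_zero (IsPw.of_mul ((Valuation.ne_zero_iff _).2 hc0) h5)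
  obtain ⟨k, rfl⟩ := hE
  obtain ⟨k', rfl⟩ := hE'
  obtain ⟨y, hy⟩ := htriv L0 _ hθ htop R0 (x * G * G') hxG hevw
    ⟨c * algebraMap O K0 τ ^ k * algebraMap O K0 τ' ^ k', by rw [hno]; ring⟩
  have hy0 : y ≠ 0 := by
    rintro rfl
    rw [zero_pow two_ne_zero] at hy
    exact hxG hy
  rw [pow_mul, neg_one_sq, one_pow, one_mul] at h1 h1'
  refine ⟨e, e', y / (G * G'), div_ne_zero hy0 (mul_ne_zero h0 h0'), ?_⟩
  rw [← h1, ← h1', div_pow, ← hy]
  field_simp

end base

end Pool.Agent.H89.GT
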