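import Pool.Agent.H89.GT.Res

/-!
# The residue relations in the biquadratic extension
-/

set_option autoImplicit false
set_option linter.all false

open Polynomial IsDedekindDomain WithZero
open scoped Classical

namespace Pool.Agent.H89.GT

open Pool.Agent.H89.GB
open Pool.Agent.H89.GM
open Pool.Agent.H89.KT (root_of norm_gal norm_pw pw_hom)
open Pool.Agent.Y160.SE (IsPw)
open Pool.Agent.Q45.TT (val_under ram_ne_zero exists_above sum_ef tf_of)

section core

variable {R0 RF L0 LF : Type} [CommRing R0] [IsDedekindDomain R0] [Field L0]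
  [Algebra R0 L0] [IsFractionRing R0 L0] [CommRing RF] [IsDedekindDomain RF] [Field LF]
  [Algebra RF LF] [IsFractionRing RF LF] [Algebra L0 LF] [Algebra R0 RF] [Algebra R0 LF]
  [IsScalarTower R0 L0 LF] [IsScalarTower R0 RF LF] [Module.IsTorsionFree R0 RF]
  [Module.Finite R0 RF]

theorem val_lt {v : HeightOneSpectrum R0} {x : R0} :
    v.valuation L0 (algebraMap R0 L0 x) < 1 ↔ x ∈ v.asIdeal := by
  rw [HeightOneSpectrum.valuation_of_algebraMap, HeightOneSpectrum.intValuation_lt_one_iff_mem]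

theorem val_one {v : HeightOneSpectrum R0} {x : R0} (hx : x ∉ v.asIdeal) :
    v.valuation L0 (algebraMap R0 L0 x) = 1 := by
  rw [HeightOneSpectrum.valuation_of_algebraMap, HeightOneSpectrum.intValuation_eq_one_iff]
  exact hx

/-- The residue relation for the norm from a ramified quadratic extension. -/
theorem cross_core2 {D : L0} {t : LF} (hF : IsKN 2 D t) (q : HeightOneSpectrum R0)
    (hq : q.valuation L0 D = exp (-1 : ℤ)) {z : LF} (hz : z ≠ 0)
    (hev : ∀ w : HeightOneSpectrum RF, w.under R0 = q → IsPw 2 (w.valuation LF z)) {U : R0}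
    (hU : U ∉ q.asIdeal) {y : L0} (hy : y ≠ 0)
    (hno : Algebra.norm L0 z = algebraMap R0 L0 U * y ^ 2) :
    ∃ β : R0, U - β ^ 2 ∈ q.asIdeal := by
  haveI : Algebra.IsIntegral R0 RF := Algebra.IsIntegral.of_finite R0 RF
  obtain ⟨w, hw⟩ := exists_above (B := RF) q
  obtain ⟨c, hc, hap⟩ := norm_res (A := R0) hF w (by rw [hw]; exact hq) hz (hev w hw)
  rw [hw] at hap
  obtain ⟨β, hβ⟩ := sq_res q (val_one hU) hy hno hap
  refine ⟨β, ?_⟩
  rw [← map_pow, ← map_sub] at hβ
  exact val_lt.1 hβ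

variable {R L : Type} [CommRing R] [IsDedekindDomain R] [Field L] [Algebra R L]
  [IsFractionRing R L] [Algebra LF L] [Algebra RF R] [Algebra RF L] [IsScalarTower RF LF L]
  [IsScalarTower RF R L] [Module.IsTorsionFree RF R] [Module.Finite RF R]

include RF in
/-- The residue relation for the norm from the biquadratic extension. -/
theorem cross_core {τ τ' : R0} {t : LF} {s : L} (hF : IsKN 2 (algebraMap R0 L0 τ') t)
    (hL : IsKN 2 (algebraMap R0 LF τ) s) (h2 : IsUnit ((2 : ℕ) : R0)) (q : HeightOneSpectrum R0)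
    (hq : q.valuation L0 (algebraMap R0 L0 τ) = exp (-1 : ℤ)) (hτ' : τ' ∉ q.asIdeal)
    {ρ : R0} (hρ : τ' - ρ ^ 2 ∈ q.asIdeal) {z : L} (hz : z ≠ 0)
    (hev : ∀ w : HeightOneSpectrum R, IsPw 2 (w.valuation L z)) {U : R0} (hU : U ∉ q.asIdeal)
    {y : LF} (hy : y ≠ 0) (hno : Algebra.norm LF z = algebraMap R0 LF U * y ^ 2) :
    ∃ β : R0, U - β ^ 2 ∈ q.asIdeal := by
  haveI : Algebra.IsIntegral R0 RF := Algebra.IsIntegral.of_finite R0 RF
  haveI : Algebra.IsIntegral RF R := Algebra.IsIntegral.of_finite RF R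
  obtain ⟨w, hw⟩ := exists_above (B := RF) q
  have hmem : ∀ a : R0, algebraMap R0 RF a ∈ w.asIdeal ↔ a ∈ q.asIdeal := by
    intro a
    rw [← hw]
    exact Iff.rfl
  have hτw : w.valuation LF (algebraMap R0 LF τ) = exp (-1 : ℤ) := by
    rw [IsScalarTower.algebraMap_apply R0 L0 LF, val_under (A := R0),
      ram_one one_lt_two hF h2 w (by rw [hw]; exact hτ'), pow_one, hw]
    exact hq
  obtain ⟨W, hW⟩ := exists_above (B := R) w
  obtain ⟨c, hc, hap⟩ := norm_res (A := RF) hL W (by rw [hW]; exact hτw) hz (hev W)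
  rw [hW] at hap
  have hUw : algebraMap R0 RF U ∉ w.asIdeal := fun h => hU ((hmem U).1 h)
  rw [IsScalarTower.algebraMap_apply R0 RF LF] at hno
  obtain ⟨β, hβ⟩ := sq_res w (val_one hUw) hy hno hap
  rw [← map_pow, ← map_sub] at hβ
  have hβw : algebraMap R0 RF U - β ^ 2 ∈ w.asIdeal := val_lt.1 hβ
  have hin := inert_one (A := R0) hF h2 w (by rw [hw]; exact hτ') (ρ := ρ) (by rw [hw]; exact hρ)
  obtain ⟨b, hb⟩ := res_bij (A := R0) w hin (I := q.asIdeal) (congrArg HeightOneSpectrum.asIdeal hw)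
    (Ideal.Quotient.mk w.asIdeal β)
  refine ⟨b, ?_⟩
  rw [← hmem, ← Ideal.Quotient.eq_zero_iff_mem, map_sub, map_pow, map_sub, map_pow, hb, ← map_pow,
    ← map_sub, Ideal.Quotient.eq_zero_iff_mem]
  exact hβw

end core

end Pool.Agent.H89.GT
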