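import Pool.Agent.H89.GT.Irr

/-!
# The theorem with two marked primes
-/

set_option autoImplicit false
set_option linter.all false

open Polynomial IsDedekindDomain WithZero
open scoped Classical

namespace Pool.Agent.H89.GT

open Pool.Agent.H89.GB
open Pool.Agent.H89.GM
open Pool.Agent.Y160.SE (IsPw)
open Pool.Agent.Q45.GP (Regular)
open Pool.Agent.Y160.SQ
open Pool.Agent.TH115.GD (Sep)
open Pool.Agent.Y160.RK (ptCl ptCl_spec spanD mem_spanD gen_iter rank_lin sum_pts)
open Pool.Agent.Q45.TT (val_under ram_ne_zero exists_above sum_ef tf_of)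

section field

/-- The intermediate field. -/
theorem exists_mid {O K0 K : Type} [CommRing O] [IsDedekindDomain O] [Field K0] [Field K]
    [Algebra O K0] [Algebra O K] [Algebra K0 K] [IsScalarTower O K0 K] {s t : K}
    (htop : IntermediateField.adjoin K0 {s, t} = ⊤) :
    ∃ (F : Type) (_ : Field F) (_ : Algebra O F) (_ : Algebra K0 F) (_ : Algebra F K) (t' : F),
      IsScalarTower O K0 F ∧ IsScalarTower K0 F K ∧ IsScalarTower O F K ∧ algebraMap F K t' = t ∧
      IntermediateField.adjoin K0 {t'} = ⊤ ∧ IntermediateField.adjoin F {s} = ⊤ := by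
  obtain ⟨F, i1, i2, i3, i4, t', i5, i6, i7, h1, h3⟩ := exists_sub (O := O) (K' := K0) t
  refine ⟨F, i1, i2, i3, i4, t', i5, i6, i7, h1, h3, ?_⟩
  rw [eq_top_iff]
  intro x _
  have h4 : (⊤ : IntermediateField K0 K) ≤
      (IntermediateField.adjoin F {s}).restrictScalars K0 := by
    rw [← htop, IntermediateField.adjoin_le_iff]
    rintro y (rfl | rfl)
    · exact IntermediateField.mem_adjoin_simple_self F _
    · rw [← h1]
      exact IntermediateField.algebraMap_mem _ t'
  exact h4 (IntermediateField.mem_top (x := x))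

end field

section fin

variable {O : Type} [CommRing O] [IsDedekindDomain O] {f : O[X]} {τ τ' : O} {r r' : ℕ}
  {Q : Fin (r + 1) → O[X]} {Q' : Fin (r' + 1) → O[X]}

/-- The element `τ` is not a square in the extension by the root of `τ'`. -/
theorem kn_pair (H : Base 2 O) {K0 F K : Type} [Field K0] [Field F] [Field K]
    [Algebra O K0] [Algebra O F] [Algebra O K] [Algebra K0 F] [Algebra F K] [IsScalarTower O K0 F]
    [IsScalarTower O F K] {t : F} {s : K}
    (hfs₀ : FS O K0)
    {A0 : Type} [CommRing A0] [IsDedekindDomain A0] [Algebra O A0] [Algebra A0 K0]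
    [IsFractionRing A0 K0] [IsScalarTower O A0 K0] [IsIntegralClosure A0 O K0]
    (hM : Marked f τ Q A0) (hM' : Marked f τ' Q' A0)
    (hcop : IsCoprime (algebraMap O A0 τ) (algebraMap O A0 τ'))
    (ht : t ^ 2 = algebraMap O F τ') (hs : s ^ 2 = algebraMap O K τ)
    (htF : IntermediateField.adjoin K0 {t} = ⊤) (hsK : IntermediateField.adjoin F {s} = ⊤) :
    IsKN 2 (algebraMap O K0 τ') t ∧ IsKN 2 (algebraMap O F τ) s := by
  have h2 : ((2 : ℕ) : K0) ≠ 0 := by
    have h3 := H.unit.map (algebraMap O K0)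
    rw [map_natCast] at h3
    exact h3.ne_zero
  have hζ : IsPrimitiveRoot (-1 : K0) 2 := by
    obtain ⟨ζ, hζ⟩ := H.zeta
    have h1 := (hζ.map_of_injective hfs₀.inj)
    rwa [h1.eq_neg_one_of_two_right] at h1
  have hq₀ : IsKN 2 (algebraMap O K0 τ') t := by
    refine ⟨two_ne_zero, h2, ⟨-1, hζ⟩, ?_, ?_, htF⟩
    · rw [ht, IsScalarTower.algebraMap_apply O K0 F]
    · rw [IsScalarTower.algebraMap_apply O A0 K0]
      exact irr_eis hM'.prime one_lt_two
  refine ⟨hq₀, two_ne_zero, ?_, ⟨algebraMap K0 F (-1),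
    hζ.map_of_injective (algebraMap K0 F).injective⟩, ?_, ?_, hsK⟩
  · have h3 : ((2 : ℕ) : F) = algebraMap K0 F ((2 : ℕ) : K0) := by rw [map_natCast]
    rw [h3]
    exact (_root_.map_ne_zero _).2 h2
  · rw [hs, IsScalarTower.algebraMap_apply O F K]
  · -- irreducibility
    refine X_pow_sub_C_irreducible_of_prime Nat.prime_two fun b hb => ?_
    have hτ0 : algebraMap O K0 τ ≠ 0 := by
      rw [IsScalarTower.algebraMap_apply O A0 K0]
      exact fun h => hM.prime.ne_zero (IsFractionRing.injective A0 K0 (by rw [h, map_zero]))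
    rw [IsScalarTower.algebraMap_apply O K0 F] at hb
    obtain ⟨c, k, hc, hk⟩ := hq₀.pw_baseN (n := 2) (M := 1) rfl one_lt_two hτ0 hb
    obtain ⟨v, hv⟩ := exists_v hM
    have h1 := congrArg (v.valuation K0) hk
    have h3 : v.valuation K0 (algebraMap O K0 τ') = 1 := by
      rw [IsScalarTower.algebraMap_apply O A0 K0]
      refine val_one fun hb => ?_
      obtain ⟨x, y, hxy⟩ := hcop
      refine v.isPrime.ne_top ((Ideal.eq_top_iff_one _).2 ?_)
      rw [← hxy]
      exact v.asIdeal.add_mem (Ideal.mul_mem_left _ _ (by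
        rw [hv]; exact Ideal.mem_span_singleton_self _)) (Ideal.mul_mem_left _ _ hb)
    rw [val_tau (K0 := K0) hM v hv, map_mul, map_pow, map_pow, h3, one_pow, mul_one] at h1
    have h4 : 2 ∣ 1 := dvd_exp (n := 1) two_ne_zero ⟨v.valuation K0 c, by rw [pow_one]; exact h1⟩
    omega

/-- The divisors of the two marked primes. -/
def TPts {O : Type} [CommRing O] {r r' : ℕ} (Q : Fin (r + 1) → O[X]) (Q' : Fin (r' + 1) → O[X])
    {K : Type} [Field K] [Algebra O K] (s t : K) : Set (K[X] × K[X]) :=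
  {P | (∃ i, P = ((Q i).map (algebraMap O K), C s)) ∨
    ∃ i, P = ((Q' i).map (algebraMap O K), C t)}

/-- The index of the points. -/
noncomputable def pts {O : Type} [CommRing O] {r r' : ℕ} (Q : Fin (r + 1) → O[X])
    (Q' : Fin (r' + 1) → O[X]) {K : Type} [Field K] [Algebra O K] (s t : K) (x : Fin r ⊕ Fin r') :
    K[X] × K[X] :=
  Sum.elim (fun i => ((Q (Fin.succ i)).map (algebraMap O K), C s))
    (fun i => ((Q' (Fin.succ i)).map (algebraMap O K), C t)) x

theorem dvP_sum {K L : Type} [Field K] [Field L] [Algebra K L] {θ : L} {ι : Type} [Fintype ι]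
    (P : ι → K[X] × K[X]) (e : ι → ℕ) :
    aeval θ (dvP (∑ i, e i • ({P i} : Multiset (K[X] × K[X])))) = ∏ i, aeval θ (P i).1 ^ e i := by
  unfold dvP
  have h7 : (∑ i, e i • ({P i} : Multiset (K[X] × K[X]))).map (fun P => P.1) =
      ∑ i, e i • ({(P i).1} : Multiset K[X]) := by
    rw [← Multiset.coe_mapAddMonoidHom, map_sum]
    refine Finset.sum_congr rfl fun i _ => ?_
    rw [map_nsmul, Multiset.coe_mapAddMonoidHom, Multiset.map_singleton]
  rw [h7, Multiset.prod_sum, map_prod]
  refine Finset.prod_congr rfl fun i _ => ?_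
  rw [Multiset.prod_nsmul, Multiset.prod_singleton, map_pow]

/-- **The Tate-Shafarevich group and the Mordell-Weil group with two marked primes.** -/
theorem sha_two (H : Base 2 O) (hf : Pol 2 f) [IsDedekindDomain (AdjoinRoot f)]
    (hrel : RelTriv 2 f) {K0 K : Type} [Field K0] [Field K] [Algebra O K0] [Algebra O K]
    [Algebra K0 K] [IsScalarTower O K0 K] {s t : K}
    (hs : s ^ 2 = algebraMap O K τ) (ht : t ^ 2 = algebraMap O K τ')
    (htop : IntermediateField.adjoin K0 {s, t} = ⊤) {n : ℕ} {s₀ : ℕ → K0}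
    (htw : IsTower 2 O K0 n s₀)
    {A0 : Type} [CommRing A0] [IsDedekindDomain A0] [Algebra O A0] [Algebra A0 K0]
    [IsFractionRing A0 K0] [IsScalarTower O A0 K0] [IsIntegralClosure A0 O K0]
    (hram : Ram f A0) (hM : Marked f τ Q A0) (hM' : Marked f τ' Q' A0)
    (hcop : IsCoprime (algebraMap O A0 τ) (algebraMap O A0 τ'))
    {ρ : A0} (hρ : algebraMap O A0 τ' - ρ ^ 2 ∈ Ideal.span {algebraMap O A0 τ})
    {ρ' : A0} (hρ' : algebraMap O A0 τ - ρ' ^ 2 ∈ Ideal.span {algebraMap O A0 τ'})
    (hcr : Cross τ Q Q' A0) (hcr' : Cross τ' Q' Q A0)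
    {A : Type} [CommRing A] [IsDedekindDomain A] [Algebra A K] [IsFractionRing A K]
    [Algebra O A] [IsScalarTower O A K] [IsIntegralClosure A O K] {q : ℕ} (hq2 : q = 2 ^ 1) :
    Pool.Agent.Y160.SH.ShaTriv 2 q A (fK f K) ∧
      ∃ D : Fin r ⊕ Fin r' → Jac q (fK f K) K,
        (LinearIndependent ℤ D ∧ ∀ (n : ℕ) (x : Jac q (fK f K) K), ∃ y : Jac q (fK f K) K,
          x - 2 ^ n • y ∈ AddSubgroup.closure (Set.range D)) ∧
        ∀ i, IsCl K (prI q ((fK f K).map (algebraMap K K)) (pts Q Q' s t i).1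
          (pts Q Q' s t i).2) (D i) := by
  subst hq2
  have hfs₀ : FS O K0 := htw.fs H
  have hirr₀ : Irreducible (fK f K0) := IsTower.irr H hf htw
  have hramK : RamK f K0 := RamK.of hfs₀ hram
  have htriv : Triv 2 f K0 := IsTower.triv H hf (fun K _ _ hK => Triv.base H.prime hf hrel hK) htw
    hramK
  -- the two intermediate fields
  obtain ⟨F, i1, i2, i3, i4, t', i5, i6, i7, rfl, htF, hsK⟩ := exists_mid (O := O) htop
  obtain ⟨E, j1, j2, j3, j4, s', j5, j6, j7, hs's, hsE, htK⟩ := exists_mid (O := O) (s := algebraMap F K t')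
    (t := s) (K0 := K0) (by rw [Set.pair_comm]; exact htop)
  have ht' : t' ^ 2 = algebraMap O F τ' := by
    apply (algebraMap F K).injective
    rw [map_pow, ht, ← IsScalarTower.algebraMap_apply O F K]
  have hs' : s' ^ 2 = algebraMap O E τ := by
    apply (algebraMap E K).injective
    rw [map_pow, hs's, hs, ← IsScalarTower.algebraMap_apply O E K]
  obtain ⟨hq₀, hq⟩ := kn_pair (K := K) H hfs₀ hM hM' hcop ht' hs htF hsK
  obtain ⟨hqE₀, hqE⟩ := kn_pair (K := K) H hfs₀ hM' hM hcop.symm hs' ht hsE htK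
  have htwF := tower_add (m := 1) (p := 2) one_ne_zero
    (show t' ^ 2 ^ 1 = algebraMap K0 F (algebraMap O K0 τ') by
      rw [pow_one, ht', IsScalarTower.algebraMap_apply O K0 F]) htF htw
  have htwK := tower_add (m := 1) (p := 2) (K' := F) (K := K) one_ne_zero
    (show s ^ 2 ^ 1 = algebraMap F K (algebraMap O F τ) by
      rw [pow_one, hs, IsScalarTower.algebraMap_apply O F K]) hsK htwF
  have hirrF : Irreducible (fK f F) := IsTower.irr H hf htwF
  have hfs : FS O K := htwK.fs H
  have hirr : Irreducible (fK f K) := IsTower.irr H hf htwK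
  have hsep : (fK f K).Separable := IsTower.sep H hf htwK
  haveI : Module.Finite O A := hfs.finite A
  haveI : Module.IsTorsionFree O A := by
    rw [Module.isTorsionFree_iff_algebraMap_injective]
    exact hfs.injB A
  haveI : Algebra.IsIntegral O A := Algebra.IsIntegral.of_finite O A
  have hreg : Regular K (fK f A) := regular_of' H hf.monic (fun v => htwK.pow H A v)
    (fun P v hPv => sep_two H hq₀ hq hfs₀ hram hM hM' P v hPv)
  have hirrQ : ∀ i, Irreducible ((Q i).map (algebraMap O K)) := fun i =>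
    irr_two H hq₀ hq hfs₀ hM.prime hcop hρ (hM.monic i) (hM.irr i)
  have hirrQ' : ∀ i, Irreducible ((Q' i).map (algebraMap O K)) := fun i =>
    irr_two H hqE₀ hqE hfs₀ hM'.prime hcop.symm hρ' (hM'.monic i) (hM'.irr i)
  have hs0 : s ≠ 0 := hq.s_ne one_lt_two
  set t : K := algebraMap F K t' with htdef
  have ht0 : t ≠ 0 := hqE.s_ne one_lt_two
  have hs1 : s ^ 2 ^ 1 = algebraMap O K τ := by rw [pow_one, hs]
  have ht1 : t ^ 2 ^ 1 = algebraMap O K τ' := by rw [pow_one, ht]
  have hP : ∀ P ∈ TPts Q Q' s t, Irreducible P.1 ∧ P.1.Monic ∧ ¬ P.1 ∣ fK f K ∧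
      P.1 ∣ fK f K - P.2 ^ (2 ^ 1) := by
    rintro P (h | h)
    · exact mpts_ok (N := 2 ^ 1) (by norm_num) hs1 hs0 hM.monic hM.prod hirrQ P h
    · exact mpts_ok (N := 2 ^ 1) (by norm_num) ht1 ht0 hM'.monic hM'.prod hirrQ' P h
  have hζ : IsPrimitiveRoot (-1 : K) (2 ^ 1) := by
    rw [pow_one]
    obtain ⟨ζ, hζ⟩ := H.zeta
    have h1 := (hζ.map_of_injective hfs.inj)
    rwa [h1.eq_neg_one_of_two_right] at h1
  obtain ⟨hgd, h1, hgen⟩ := sha_of H hf hfs hirr hsep one_ne_zero hζ (A := A) hreg (TPts Q Q' s t) hP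
    (fun L _ _ _ _ θ hθ htop R _ _ _ _ _ _ _ z hz hev hno => by
      obtain ⟨-, -, hcl, -⟩ := two_main H hf hq₀ hq hfs₀ hirr₀ hirrF hirr htriv hM hM' hcop hρ hcr
        hcr' hθ htop (R := R)
      rw [pow_one] at hev hno
      obtain ⟨e, e', y, hy0, hy⟩ := hcl z hz hev hno
      refine ⟨1, y, (∑ i, e i • ({((Q i).map (algebraMap O K), C s)} : Multiset (K[X] × K[X]))) +
        ∑ i, e' i • ({((Q' i).map (algebraMap O K), C t)} : Multiset (K[X] × K[X])),
        one_ne_zero, hy0, ?_, ?_⟩
      · intro P hP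
        rcases Multiset.mem_add.1 hP with hP | hP
        · rw [Multiset.mem_sum] at hP
          obtain ⟨i, -, hi⟩ := hP
          exact Or.inl ⟨i, Multiset.mem_singleton.1 (Multiset.mem_of_mem_nsmul hi)⟩
        · rw [Multiset.mem_sum] at hP
          obtain ⟨i, -, hi⟩ := hP
          exact Or.inr ⟨i, Multiset.mem_singleton.1 (Multiset.mem_of_mem_nsmul hi)⟩
      · have h5 : ∀ S T : Multiset (K[X] × K[X]), dvP (S + T) = dvP S * dvP T := by
          intro S T
          unfold dvP
          rw [Multiset.map_add, Multiset.prod_add]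
        rw [h5, map_mul, dvP_sum, dvP_sum, map_one, one_mul, pow_one, hy]
        simp only [aeval_map_algebraMap]
        ring)
  have hPp : ∀ x, pts Q Q' s t x ∈ TPts Q Q' s t := by
    rintro (i | i)
    · exact Or.inl ⟨i.succ, rfl⟩
    · exact Or.inr ⟨i.succ, rfl⟩
  set D : Fin r ⊕ Fin r' → Jac (2 ^ 1) (fK f K) K :=
    fun x => ptCl (2 ^ 1) (fK f K) (pts Q Q' s t x) with hD
  refine ⟨h1, D, ⟨?_, fun n x => ?_⟩, fun i => ptCl_spec hyps hgd (hP _ (hPp i)).1⟩
  · -- independence
    obtain ⟨L, R, i1, i2, i3, i4, i5, i6, i7, i8, θ, i9, i10, i11, i12, hint, hcomp, hθ, htopL,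
      hfsL⟩ := exists_field hf hirr hsep hfs A
    obtain ⟨i⟩ := Pool.Agent.Q45.GP.exists_emb hgd hθ htopL
    letI : Algebra L (Sep K) := i.toRingHom.toAlgebra
    haveI : IsScalarTower K L (Sep K) := IsScalarTower.of_algebraMap_eq fun x => (i.commutes x).symm
    haveI : Algebra.IsSeparable K (Sep K) := IsSepClosure.separable
    haveI : IsSepClosed (Sep K) := IsSepClosure.sep_closed K
    haveI : IsGalois K (Sep K) := inferInstance
    have haR : Rt (fK f K) (algebraMap L (Sep K) θ) := by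
      have h1 : aeval (algebraMap L (Sep K) θ) (fK f K) = 0 := by
        rw [aeval_algebraMap_apply, hθ, map_zero]
      exact h1
    obtain ⟨-, -, -, hind⟩ := two_main H hf hq₀ hq hfs₀ hirr₀ hirrF hirr htriv hM hM' hcop hρ hcr
      hcr' hθ htopL (R := R)
    have h3 := rank_lin (p := 2) (s := 0) (N := L) (Ω := Sep K) hyps hgd
      Pool.Agent.Y160.FT.inj_all Pool.Agent.Y627.FT.stLin Nat.prime_two rfl hirr haR rfl
      (fun j : Fin (r + r') => pts Q Q' s t (finSumFinEquiv.symm j)) (fun j => hP _ (hPp _)) (by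
        intro e w hw0 hw j
        have h4 : (∏ j, aeval θ (pts Q Q' s t (finSumFinEquiv.symm j)).1 ^ e j) =
            (∏ j, aeval θ (Q (Fin.succ j)) ^ e (finSumFinEquiv (Sum.inl j))) *
              ∏ j, aeval θ (Q' (Fin.succ j)) ^ e (finSumFinEquiv (Sum.inr j)) := by
          rw [← Equiv.prod_comp (finSumFinEquiv (m := r) (n := r')), Fintype.prod_sum_type]
          simp only [Equiv.symm_apply_apply]
          congr 1
          · refine Finset.prod_congr rfl fun i _ => ?_
            show aeval θ ((Q (Fin.succ i)).map (algebraMap O K)) ^ _ = _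
            rw [aeval_map_algebraMap]
          · refine Finset.prod_congr rfl fun i _ => ?_
            show aeval θ ((Q' (Fin.succ i)).map (algebraMap O K)) ^ _ = _
            rw [aeval_map_algebraMap]
        rw [h4, fK_natDegree hf, pow_one] at hw
        obtain ⟨h5, h6⟩ := hind _ _ w hw0 hw
        rw [pow_one]
        obtain ⟨x, rfl⟩ := (finSumFinEquiv (m := r) (n := r')).surjective j
        rcases x with x | x
        · exact h5 x
        · exact h6 x)
    have h5 := h3.comp (fun x : Fin r ⊕ Fin r' => (finSumFinEquiv x, (⟨0, by norm_num⟩ :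
      Fin (2 ^ 1 - 1)))) (by
        intro x y hxy
        exact finSumFinEquiv.injective (Prod.ext_iff.1 hxy).1)
    have h6 : D = (fun i : Fin (r + r') × Fin (2 ^ 1 - 1) => ((sg hgd K) ^ (i.2 : ℕ))
        (ptCl (2 ^ 1) (fK f K) (pts Q Q' s t (finSumFinEquiv.symm i.1)))) ∘
        (fun x : Fin r ⊕ Fin r' => (finSumFinEquiv x, (⟨0, by norm_num⟩ : Fin (2 ^ 1 - 1)))) := by
      funext x
      show ptCl (2 ^ 1) (fK f K) (pts Q Q' s t x) = ((sg hgd K) ^ 0)
        (ptCl (2 ^ 1) (fK f K) (pts Q Q' s t (finSumFinEquiv.symm (finSumFinEquiv x))))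
      rw [Equiv.symm_apply_apply, pow_zero]
      rfl
    rw [h6]
    exact h5
  · -- generation
    have h3 : ∀ x : Jac (2 ^ 1) (fK f K) K, ∃ y : Jac (2 ^ 1) (fK f K) K,
        x - 2 ^ n • y ∈ spanD hgd (fun j : Fin (r + r') => D (finSumFinEquiv.symm j)) := by
      intro x
      refine gen_iter (m := 1) hyps hgd Nat.prime_two rfl _ (fun x => ?_) n x
      obtain ⟨T, v, hT, hx⟩ := hgen x
      refine ⟨v, ?_⟩
      rw [hx, add_sub_cancel_right]
      refine AddSubgroup.multiset_sum_mem _ _ fun z hz => ?_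
      obtain ⟨P, hPT, rfl⟩ := Multiset.mem_map.1 hz
      have hmem : ∀ x, D x ∈ spanD hgd (fun j : Fin (r + r') => D (finSumFinEquiv.symm j)) := by
        intro x
        have h4 := mem_spanD hgd (fun j : Fin (r + r') => D (finSumFinEquiv.symm j))
          (finSumFinEquiv x)
        simp only [Equiv.symm_apply_apply] at h4
        exact h4
      have hrelQ : ∀ {r : ℕ} (Q : Fin (r + 1) → O[X]) (τ : O) (s : K), s ^ 2 ^ 1 = algebraMap O K τ →
          Marked f τ Q A0 → (∀ i, Irreducible ((Q i).map (algebraMap O K))) →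
          ptCl (2 ^ 1) (fK f K) ((Q 0).map (algebraMap O K), C s) +
            ∑ i : Fin r, ptCl (2 ^ 1) (fK f K) ((Q i.succ).map (algebraMap O K), C s) = 0 := by
        intro r Q τ s hs1 hM hirrQ
        have h3 := sum_pts hyps hgd (fun j : Fin (r + 1) => (Q j).map (algebraMap O K)) (C s)
          (fun j => ⟨hirrQ j, (hM.monic j).map _⟩)
          (fun a b hab => by
            by_contra hne
            have h4 := hM.cop hne
            have h5 : Q a = Q b := Polynomial.map_injective _ hfs.inj hab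
            rw [h5] at h4
            exact (hM.irr b).not_isUnit (isCoprime_self.1 h4))
          (by
            rw [← C_pow, hs1, ← Polynomial.map_prod, hM.prod, fK, Polynomial.map_sub, map_C])
          (by
            rw [← C_pow, hs1]
            intro h4
            have h5 : (fK f K).natDegree = 0 := by
              rw [sub_eq_zero.1 h4, natDegree_C]
            exact (fK_pos hf K).ne' h5)
        rw [Fin.sum_univ_succ] at h3
        exact h3
      rcases hT P hPT with ⟨i, rfl⟩ | ⟨i, rfl⟩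
      · refine Fin.cases ?_ (fun i => hmem (Sum.inl i)) i
        rw [eq_neg_of_add_eq_zero_left (hrelQ Q τ s hs1 hM hirrQ)]
        exact AddSubgroup.neg_mem _ (AddSubgroup.sum_mem _ fun i _ => hmem (Sum.inl i))
      · refine Fin.cases ?_ (fun i => hmem (Sum.inr i)) i
        rw [eq_neg_of_add_eq_zero_left (hrelQ Q' τ' t ht1 hM' hirrQ')]
        exact AddSubgroup.neg_mem _ (AddSubgroup.sum_mem _ fun i _ => hmem (Sum.inr i))
    obtain ⟨y, hy⟩ := h3 x
    refine ⟨y, ?_⟩
    have hle : spanD hgd (fun j : Fin (r + r') => D (finSumFinEquiv.symm j)) ≤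
        AddSubgroup.closure (Set.range D) := by
      unfold spanD
      rw [AddSubgroup.closure_le]
      rintro _ ⟨⟨i, j⟩, rfl⟩
      have hj : (j : ℕ) = 0 := Nat.lt_one_iff.1 j.2
      show ((sg hgd K) ^ (j : ℕ)) (D (finSumFinEquiv.symm i)) ∈ _
      rw [hj, pow_zero]
      exact AddSubgroup.subset_closure ⟨_, rfl⟩
    exact hle hy

end fin

end Pool.Agent.H89.GT
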