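import Pool.Agent.H89.GT.Main

/-!
# Irreducibility and separability over the biquadratic extension
-/

set_option autoImplicit false
set_option linter.all false

open Polynomial IsDedekindDomain WithZero
open scoped Classical

namespace Pool.Agent.H89.GT

open Pool.Agent.H89.GB
open Pool.Agent.H89.GM
open Pool.Agent.H89.KT (root_of norm_gal norm_pw pw_hom)
open Pool.Agent.Y160.SE (IsPw)
open Pool.Agent.Q45.TT (val_under ram_ne_zero exists_above sum_ef tf_of)

section irr

variable {O : Type} [CommRing O] [IsDedekindDomain O] {f : O[X]} {τ τ' : O} {r r' : ℕ}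
  {Q : Fin (r + 1) → O[X]} {Q' : Fin (r' + 1) → O[X]}

/-- The factors stay irreducible over the biquadratic extension. -/
theorem irr_two (H : Base 2 O) {K0 F K : Type} [Field K0] [Field F] [Field K]
    [Algebra O K0] [Algebra O F] [Algebra O K] [Algebra K0 F] [Algebra F K] [IsScalarTower O K0 F]
    [IsScalarTower O F K] {t : F} {s : K}
    (hq₀ : IsKN 2 (algebraMap O K0 τ') t) (hq : IsKN 2 (algebraMap O F τ) s)
    (hfs₀ : FS O K0)
    {A0 : Type} [CommRing A0] [IsDedekindDomain A0] [Algebra O A0] [Algebra A0 K0]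
    [IsFractionRing A0 K0] [IsScalarTower O A0 K0] [IsIntegralClosure A0 O K0]
    (hc : Prime (algebraMap O A0 τ))
    (hcop : IsCoprime (algebraMap O A0 τ) (algebraMap O A0 τ'))
    {ρ : A0} (hρ : algebraMap O A0 τ' - ρ ^ 2 ∈ Ideal.span {algebraMap O A0 τ}) {G : O[X]}
    (hGm : G.Monic) (hG : Irreducible (G.map (red τ A0))) :
    Irreducible (G.map (algebraMap O K)) := by
  haveI := hq₀.fin
  haveI := hq.fin
  have hfsF : FS O F := hfs₀.trans hq₀.fin (hq₀.separable one_lt_two)
  have hfs : FS O K := hfsF.trans hq.fin (hq.separable one_lt_two)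
  obtain ⟨AF, b1, b2, b3, b4, b5⟩ := exists_ic (O := O) F
  obtain ⟨A, c1, c2, c3, c4, c5⟩ := exists_ic (O := O) K
  haveI := hfsF.ded AF
  haveI := hfsF.frac AF
  haveI := hfsF.finite AF
  haveI := hfs.ded A
  haveI := hfs.frac A
  haveI := hfs.finite A
  -- `A0` and `AF`
  obtain ⟨φ0, hφ01, hφ02⟩ := exists_alg (O := O) (K' := K0) (K := F) A0 AF
  letI : Algebra A0 AF := φ0.toAlgebra
  haveI : IsScalarTower O A0 AF := IsScalarTower.of_algebraMap_eq fun p => (hφ02 p).symm
  haveI : Module.Finite A0 AF := Module.Finite.of_restrictScalars_finite O A0 AF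
  haveI : Algebra.IsIntegral A0 AF := Algebra.IsIntegral.of_finite A0 AF
  haveI : Module.IsTorsionFree A0 AF := by
    rw [Module.isTorsionFree_iff_algebraMap_injective]
    exact tf_of (K' := K0) (K := F) (IsFractionRing.injective A0 K0) hφ01
  letI : Algebra A0 F := ((algebraMap K0 F).comp (algebraMap A0 K0)).toAlgebra
  haveI : IsScalarTower A0 K0 F := IsScalarTower.of_algebraMap_eq fun _ => rfl
  haveI : IsScalarTower A0 AF F := IsScalarTower.of_algebraMap_eq fun a => (hφ01 a).symm
  -- `AF` and `A`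
  obtain ⟨φF, hφF1, hφF2⟩ := exists_alg (O := O) (K' := F) (K := K) AF A
  letI : Algebra AF A := φF.toAlgebra
  haveI : IsScalarTower O AF A := IsScalarTower.of_algebraMap_eq fun p => (hφF2 p).symm
  haveI : Module.Finite AF A := Module.Finite.of_restrictScalars_finite O AF A
  haveI : Algebra.IsIntegral AF A := Algebra.IsIntegral.of_finite AF A
  haveI : Module.IsTorsionFree AF A := by
    rw [Module.isTorsionFree_iff_algebraMap_injective]
    exact tf_of (K' := F) (K := K) (IsFractionRing.injective AF F) hφF1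
  letI : Algebra AF K := ((algebraMap F K).comp (algebraMap AF F)).toAlgebra
  haveI : IsScalarTower AF F K := IsScalarTower.of_algebraMap_eq fun _ => rfl
  haveI : IsScalarTower AF A K := IsScalarTower.of_algebraMap_eq fun a => (hφF1 a).symm
  have h2 : IsUnit ((2 : ℕ) : A0) := by
    have h1 := H.unit.map (algebraMap O A0)
    rwa [map_natCast] at h1
  have hI0 : Ideal.span {algebraMap O A0 τ} ≠ ⊥ :=
    fun h => hc.ne_zero (Ideal.span_singleton_eq_bot.1 h)
  have hIp : (Ideal.span {algebraMap O A0 τ}).IsPrime := (Ideal.span_singleton_prime hc.ne_zero).2 hc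
  let v : HeightOneSpectrum A0 := ⟨Ideal.span {algebraMap O A0 τ}, hIp, hI0⟩
  obtain ⟨w, hw⟩ := exists_above (B := AF) v
  obtain ⟨W, hW⟩ := exists_above (B := A) w
  have hτv : v.valuation K0 (algebraMap O K0 τ) = exp (-1 : ℤ) := by
    rw [IsScalarTower.algebraMap_apply O A0 K0, v.valuation_of_algebraMap]
    exact v.intValuation_singleton hc.ne_zero rfl
  have hτ' : algebraMap O A0 τ' ∉ (w.under A0).asIdeal := by
    rw [hw]
    intro h
    obtain ⟨a, b, hab⟩ := hcop
    refine v.isPrime.ne_top ((Ideal.eq_top_iff_one _).2 ?_)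
    rw [← hab]
    exact v.asIdeal.add_mem (Ideal.mul_mem_left _ _ (Ideal.mem_span_singleton_self _))
      (Ideal.mul_mem_left _ _ h)
  have hq₀' : IsKN 2 (algebraMap A0 K0 (algebraMap O A0 τ')) t := by
    rwa [← IsScalarTower.algebraMap_apply O A0 K0]
  have hτw : w.valuation F (algebraMap O F τ) = exp (-1 : ℤ) := by
    rw [IsScalarTower.algebraMap_apply O K0 F, val_under (A := A0),
      ram_one one_lt_two hq₀' h2 w hτ', pow_one, hw]
    exact hτv
  have hin1 := inert_one (A := A0) hq₀' h2 w hτ' (ρ := ρ) (by rw [hw]; exact hρ)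
  obtain ⟨-, -, hin2⟩ := ram_tot (A := AF) (B := A) (K := F) (L := K) one_lt_two hq W
    (by rw [hW]; exact hτw)
  have hsurj1 := res_bij (A := A0) w hin1 (I := v.asIdeal) (congrArg HeightOneSpectrum.asIdeal hw)
  have hsurj2 := res_bij (A := AF) W hin2 (I := w.asIdeal) (congrArg HeightOneSpectrum.asIdeal hW)
  have hmem : ∀ a : A0, algebraMap A0 AF a ∈ w.asIdeal ↔ a ∈ v.asIdeal := by
    intro a
    rw [← hw]
    exact Iff.rfl
  have hmem2 : ∀ a : AF, algebraMap AF A a ∈ W.asIdeal ↔ a ∈ w.asIdeal := by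
    intro a
    rw [← hW]
    exact Iff.rfl
  have hτW : algebraMap AF A (algebraMap A0 AF (algebraMap O A0 τ)) ∈ W.asIdeal := by
    rw [hmem2, hmem]
    exact Ideal.mem_span_singleton_self _
  have hsurj : ∀ x : A ⧸ W.asIdeal, ∃ a : A0,
      Ideal.Quotient.mk W.asIdeal (algebraMap AF A (algebraMap A0 AF a)) = x := by
    intro x
    obtain ⟨b, hb⟩ := hsurj2 x
    obtain ⟨a, ha⟩ := hsurj1 (Ideal.Quotient.mk w.asIdeal b)
    refine ⟨a, ?_⟩
    rw [← hb, Ideal.Quotient.eq, ← map_sub, hmem2, ← Ideal.Quotient.eq]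
    exact ha
  -- the isomorphism of the residue fields
  haveI : (Ideal.span {algebraMap O A0 τ}).IsMaximal := v.isMaximal
  letI : Field (A0 ⧸ Ideal.span {algebraMap O A0 τ}) := Ideal.Quotient.field _
  haveI := W.isMaximal
  letI : Field (A ⧸ W.asIdeal) := Ideal.Quotient.field _
  let ρ' : A0 ⧸ Ideal.span {algebraMap O A0 τ} →+* A ⧸ W.asIdeal :=
    Ideal.quotientMap W.asIdeal ((algebraMap AF A).comp (algebraMap A0 AF)) (by
      rw [Ideal.span_singleton_le_iff_mem, Ideal.mem_comap]
      exact hτW)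
  have hρ' : ∀ a, ρ' (Ideal.Quotient.mk _ a) =
      Ideal.Quotient.mk _ (algebraMap AF A (algebraMap A0 AF a)) := fun a => Ideal.quotientMap_mk
  let e : A0 ⧸ Ideal.span {algebraMap O A0 τ} ≃+* A ⧸ W.asIdeal := RingEquiv.ofBijective ρ'
    ⟨ρ'.injective, fun x => by
      obtain ⟨a, ha⟩ := hsurj x
      exact ⟨Ideal.Quotient.mk _ a, (hρ' a).trans ha⟩⟩
  have h1 : Irreducible ((G.map (red τ A0)).map
      (e : A0 ⧸ Ideal.span {algebraMap O A0 τ} →+* A ⧸ W.asIdeal)) :=
    (MulEquiv.irreducible_iff (Polynomial.mapEquiv e).toMulEquiv).2 hG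
  have h3 : (G.map (red τ A0)).map
      (e : A0 ⧸ Ideal.span {algebraMap O A0 τ} →+* A ⧸ W.asIdeal) =
      (G.map (algebraMap O A)).map (Ideal.Quotient.mk W.asIdeal) := by
    rw [Polynomial.map_map, Polynomial.map_map]
    congr 1
    refine RingHom.ext fun x => ?_
    show ρ' (Ideal.Quotient.mk _ (algebraMap O A0 x)) = Ideal.Quotient.mk _ (algebraMap O A x)
    rw [hρ', ← IsScalarTower.algebraMap_apply O A0 AF, ← IsScalarTower.algebraMap_apply O AF A]
  rw [h3] at h1
  have h4 := (hGm.map (algebraMap O A)).irreducible_of_irreducible_map _ _ h1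
  have h5 := ((hGm.map (algebraMap O A)).irreducible_iff_irreducible_map_fraction_map (K := K)).1 h4
  rwa [Polynomial.map_map, ← IsScalarTower.algebraMap_eq] at h5

/-- Separability modulo a prime below a marked prime. -/
theorem sep_mem {A0 : Type} [CommRing A0] [IsDedekindDomain A0] [Algebra O A0]
    (hM : Marked f τ Q A0) (P : HeightOneSpectrum O) (v : HeightOneSpectrum A0)
    (hP : ∀ x ∈ P.asIdeal, algebraMap O A0 x ∈ v.asIdeal) (htc : algebraMap O A0 τ ∈ v.asIdeal) :
    (f.map (Ideal.Quotient.mk P.asIdeal)).Separable := by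
  have hc := hM.prime
  have hs := hM.sep
  have hI0 : Ideal.span {algebraMap O A0 τ} ≠ ⊥ :=
    fun h => hc.ne_zero (Ideal.span_singleton_eq_bot.1 h)
  have hIp : (Ideal.span {algebraMap O A0 τ}).IsPrime :=
    (Ideal.span_singleton_prime hc.ne_zero).2 hc
  haveI hImax : (Ideal.span {algebraMap O A0 τ}).IsMaximal := hIp.isMaximal hI0
  have heq : Ideal.span {algebraMap O A0 τ} = v.asIdeal := by
    refine hImax.eq_of_le v.isPrime.ne_top ?_
    rw [Ideal.span_singleton_le_iff_mem]
    exact htc
  haveI := P.isMaximal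
  letI : Field (O ⧸ P.asIdeal) := Ideal.Quotient.field _
  letI : Field (A0 ⧸ Ideal.span {algebraMap O A0 τ}) := Ideal.Quotient.field _
  let ρ : O ⧸ P.asIdeal →+* A0 ⧸ Ideal.span {algebraMap O A0 τ} :=
    Ideal.Quotient.lift P.asIdeal (red τ A0) (fun x hx => by
      show Ideal.Quotient.mk _ (algebraMap O A0 x) = 0
      rw [Ideal.Quotient.eq_zero_iff_mem, heq]
      exact hP x hx)
  have h1 : f.map (red τ A0) = (f.map (Ideal.Quotient.mk P.asIdeal)).map ρ := by
    rw [Polynomial.map_map]
    congr 1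
  rw [h1] at hs
  exact (separable_map ρ).1 hs

/-- The absence of ramification, for the squares of the places. -/
theorem ram_desc {A K B L : Type} [CommRing A] [IsDedekindDomain A] [Field K] [Algebra A K]
    [IsFractionRing A K] [CommRing B] [IsDedekindDomain B] [Field L] [Algebra B L]
    [IsFractionRing B L] [Algebra K L] [Algebra A B] [Algebra A L] [IsScalarTower A K L]
    [IsScalarTower A B L] [Module.IsTorsionFree A B] [Module.Finite A B] [Algebra.IsIntegral A B]
    [Algebra O A] [Algebra O B] [IsScalarTower O A B] {d : A} {s : L}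
    (h : IsKN 2 (algebraMap A K d) s) (h2 : IsUnit ((2 : ℕ) : A)) (w : HeightOneSpectrum B)
    (hd : d ∉ (w.under A).asIdeal) (P : HeightOneSpectrum O)
    (hPw : P.asIdeal.map (algebraMap O B) ≤ w.asIdeal ^ 2) :
    P.asIdeal.map (algebraMap O A) ≤ (w.under A).asIdeal ^ 2 := by
  rw [Ideal.map_le_iff_le_comap]
  intro x hx
  rw [Ideal.mem_comap]
  have hxv : algebraMap O B x ∈ w.asIdeal ^ 2 := hPw (Ideal.mem_map_of_mem _ hx)
  rw [IsScalarTower.algebraMap_apply O A B] at hxv
  have h6 := (w.intValuation_le_pow_iff_mem _ 2).2 hxv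
  have h7 := val_under (A := A) (L := L) w (algebraMap A K (algebraMap O A x))
  rw [ram_one one_lt_two h h2 w hd, pow_one, ← IsScalarTower.algebraMap_apply A K L,
    IsScalarTower.algebraMap_apply A B L, w.valuation_of_algebraMap,
    (w.under A).valuation_of_algebraMap] at h7
  rw [← (w.under A).intValuation_le_pow_iff_mem, ← h7]
  exact h6

/-- The places with ramification. -/
theorem sep_two (H : Base 2 O) {K0 F K : Type} [Field K0] [Field F] [Field K]
    [Algebra O K0] [Algebra O F] [Algebra O K] [Algebra K0 F] [Algebra F K] [IsScalarTower O K0 F]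
    [IsScalarTower O F K] {t : F} {s : K}
    (hq₀ : IsKN 2 (algebraMap O K0 τ') t) (hq : IsKN 2 (algebraMap O F τ) s)
    (hfs₀ : FS O K0)
    {A0 : Type} [CommRing A0] [IsDedekindDomain A0] [Algebra O A0] [Algebra A0 K0]
    [IsFractionRing A0 K0] [IsScalarTower O A0 K0] [IsIntegralClosure A0 O K0]
    (hram : Ram f A0) (hM : Marked f τ Q A0) (hM' : Marked f τ' Q' A0)
    {A : Type} [CommRing A] [IsDedekindDomain A] [Algebra O A]
    [Algebra A K] [IsScalarTower O A K] [IsFractionRing A K] [IsIntegralClosure A O K]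
    (P : HeightOneSpectrum O) (v : HeightOneSpectrum A)
    (hPv : P.asIdeal.map (algebraMap O A) ≤ v.asIdeal ^ 2) :
    (f.map (Ideal.Quotient.mk P.asIdeal)).Separable := by
  haveI := hq₀.fin
  haveI := hq.fin
  have hfsF : FS O F := hfs₀.trans hq₀.fin (hq₀.separable one_lt_two)
  have hfs : FS O K := hfsF.trans hq.fin (hq.separable one_lt_two)
  obtain ⟨AF, b1, b2, b3, b4, b5⟩ := exists_ic (O := O) F
  haveI := hfsF.ded AF
  haveI := hfsF.frac AF
  haveI := hfsF.finite AF
  haveI := hfs.finite A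
  -- `A0` and `AF`
  obtain ⟨φ0, hφ01, hφ02⟩ := exists_alg (O := O) (K' := K0) (K := F) A0 AF
  letI : Algebra A0 AF := φ0.toAlgebra
  haveI : IsScalarTower O A0 AF := IsScalarTower.of_algebraMap_eq fun p => (hφ02 p).symm
  haveI : Module.Finite A0 AF := Module.Finite.of_restrictScalars_finite O A0 AF
  haveI : Algebra.IsIntegral A0 AF := Algebra.IsIntegral.of_finite A0 AF
  haveI : Module.IsTorsionFree A0 AF := by
    rw [Module.isTorsionFree_iff_algebraMap_injective]
    exact tf_of (K' := K0) (K := F) (IsFractionRing.injective A0 K0) hφ01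
  letI : Algebra A0 F := ((algebraMap K0 F).comp (algebraMap A0 K0)).toAlgebra
  haveI : IsScalarTower A0 K0 F := IsScalarTower.of_algebraMap_eq fun _ => rfl
  haveI : IsScalarTower A0 AF F := IsScalarTower.of_algebraMap_eq fun a => (hφ01 a).symm
  -- `AF` and `A`
  obtain ⟨φF, hφF1, hφF2⟩ := exists_alg (O := O) (K' := F) (K := K) AF A
  letI : Algebra AF A := φF.toAlgebra
  haveI : IsScalarTower O AF A := IsScalarTower.of_algebraMap_eq fun p => (hφF2 p).symm
  haveI : Module.Finite AF A := Module.Finite.of_restrictScalars_finite O AF A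
  haveI : Algebra.IsIntegral AF A := Algebra.IsIntegral.of_finite AF A
  haveI : Module.IsTorsionFree AF A := by
    rw [Module.isTorsionFree_iff_algebraMap_injective]
    exact tf_of (K' := F) (K := K) (IsFractionRing.injective AF F) hφF1
  letI : Algebra AF K := ((algebraMap F K).comp (algebraMap AF F)).toAlgebra
  haveI : IsScalarTower AF F K := IsScalarTower.of_algebraMap_eq fun _ => rfl
  haveI : IsScalarTower AF A K := IsScalarTower.of_algebraMap_eq fun a => (hφF1 a).symm
  have h2 : IsUnit ((2 : ℕ) : A0) := by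
    have h1 := H.unit.map (algebraMap O A0)
    rwa [map_natCast] at h1
  have h2F : IsUnit ((2 : ℕ) : AF) := by
    have h1 := H.unit.map (algebraMap O AF)
    rwa [map_natCast] at h1
  have hq₀' : IsKN 2 (algebraMap A0 K0 (algebraMap O A0 τ')) t := by
    rwa [← IsScalarTower.algebraMap_apply O A0 K0]
  have hq' : IsKN 2 (algebraMap AF F (algebraMap O AF τ)) s := by
    rwa [← IsScalarTower.algebraMap_apply O AF F]
  have hP : ∀ x ∈ P.asIdeal, algebraMap O A0 x ∈ ((v.under AF).under A0).asIdeal := by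
    intro x hx
    have h1 : algebraMap O A x ∈ v.asIdeal :=
      Ideal.pow_le_self two_ne_zero (hPv (Ideal.mem_map_of_mem _ hx))
    rw [IsScalarTower.algebraMap_apply O AF A, IsScalarTower.algebraMap_apply O A0 AF] at h1
    exact h1
  by_cases h1 : algebraMap O A0 τ ∈ ((v.under AF).under A0).asIdeal
  · exact sep_mem hM P _ hP h1
  by_cases h3 : algebraMap O A0 τ' ∈ ((v.under AF).under A0).asIdeal
  · exact sep_mem hM' P _ hP h3
  have h4 : algebraMap O AF τ ∉ (v.under AF).asIdeal := by
    rw [IsScalarTower.algebraMap_apply O A0 AF]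
    exact h1
  have h5 := ram_desc (A := AF) hq' h2F v h4 P hPv
  have h6 := ram_desc (A := A0) hq₀' h2 (v.under AF) h3 P h5
  exact (hram P _ h6).2

end irr

end Pool.Agent.H89.GT
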