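import Pool.Agent.H89.GT.Base

/-!
# The classes over the biquadratic extension
-/

set_option autoImplicit false
set_option linter.all false

open Polynomial IsDedekindDomain WithZero
open scoped Classical

namespace Pool.Agent.H89.GT

open Pool.Agent.H89.GB
open Pool.Agent.H89.GM
open Pool.Agent.H89.KT (root_of norm_gal norm_pw pw_hom)
open Pool.Agent.Y160.SE (IsPw)
open Pool.Agent.Q45.TT (val_under ram_ne_zero exists_above sum_ef tf_of)

section pl

variable {O : Type} [CommRing O] [IsDedekindDomain O] {f : O[X]} {τ : O} {r : ℕ}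
  {Q : Fin (r + 1) → O[X]} {A R K L : Type} [CommRing A] [IsDedekindDomain A]
  [CommRing R] [IsDedekindDomain R] [Field K] [Field L] [Algebra O A] [Algebra O K]
  [Algebra A K] [IsScalarTower O A K] [IsFractionRing A K] [Algebra O R] [Algebra O L]
  [Algebra R L] [IsScalarTower O R L] [IsFractionRing R L] [Algebra K L] [IsScalarTower O K L]
  [Algebra A R] [IsScalarTower O A R] [Module.Finite A R] [Module.IsTorsionFree A R]

theorem exists_pl2 (hf : Pol 2 f) (hirr : Irreducible (fK f K))
    (hsep : (fK f K).Separable) {θ : R} (hθ : aeval (algebraMap R L θ) (fK f K) = 0)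
    (htop : IntermediateField.adjoin K {algebraMap R L θ} = ⊤)
    (hcomp : ∀ a : A, algebraMap K L (algebraMap A K a) = algebraMap R L (algebraMap A R a))
    (hM : Marked f τ Q A) : ∃ q : Fin (r + 1) → HeightOneSpectrum R, Pl τ Q A R L θ q := by
  obtain ⟨q, h1, h2, h3, h4, h5, h6⟩ := mark_places (A := A) (R := R) (K := K) (L := L)
    (fK_monic hf K) hirr hsep hθ htop hcomp (fK_natDegree hf K) hM
  exact ⟨q, h1, h2, h3, h4, h5, h6⟩

end pl

section down

variable {A K B L : Type} [CommRing A] [IsDedekindDomain A] [Field K] [Algebra A K]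
  [IsFractionRing A K] [CommRing B] [IsDedekindDomain B] [Field L] [Algebra B L] [IsFractionRing B L]
  [Algebra K L] [Algebra A B] [Algebra A L] [IsScalarTower A K L] [IsScalarTower A B L]
  [Module.IsTorsionFree A B]

/-- Descent of the parity of the valuation. -/
theorem pw_down' [Module.Finite A B] {d : A} {s : L}
    (h : IsKN 2 (algebraMap A K d) s) (h2 : IsUnit ((2 : ℕ) : A))
    (v : HeightOneSpectrum A) (hd : d ∉ v.asIdeal) {x : K}
    (hx : ∀ w : HeightOneSpectrum B, w.under A = v → IsPw 2 (w.valuation L (algebraMap K L x))) :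
    IsPw 2 (v.valuation K x) := by
  haveI : Algebra.IsIntegral A B := Algebra.IsIntegral.of_finite A B
  obtain ⟨w, rfl⟩ := exists_above (B := B) v
  have h1 := hx w rfl
  rwa [val_under (A := A), ram_one one_lt_two h h2 w hd, pow_one] at h1

end down

section main

variable {O : Type} [CommRing O] [IsDedekindDomain O] {f : O[X]} {τ τ' : O} {r r' : ℕ}
  {Q : Fin (r + 1) → O[X]} {Q' : Fin (r' + 1) → O[X]}

/-- **The classes over the biquadratic extension.** -/
theorem two_main (H : Base 2 O) (hf : Pol 2 f) {K0 F K : Type} [Field K0] [Field F] [Field K]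
    [Algebra O K0] [Algebra O F] [Algebra O K] [Algebra K0 F] [Algebra F K] [IsScalarTower O K0 F]
    [IsScalarTower O F K] {t : F} {s : K}
    (hq₀ : IsKN 2 (algebraMap O K0 τ') t) (hq : IsKN 2 (algebraMap O F τ) s)
    (hfs₀ : FS O K0) (hirr₀ : Irreducible (fK f K0)) (hirrF : Irreducible (fK f F))
    (hirr : Irreducible (fK f K)) (htriv : Triv 2 f K0)
    {A0 : Type} [CommRing A0] [IsDedekindDomain A0] [Algebra O A0] [Algebra A0 K0]
    [IsFractionRing A0 K0] [IsScalarTower O A0 K0] [IsIntegralClosure A0 O K0]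
    (hM : Marked f τ Q A0) (hM' : Marked f τ' Q' A0)
    (hcop : IsCoprime (algebraMap O A0 τ) (algebraMap O A0 τ'))
    {ρ : A0} (hρ : algebraMap O A0 τ' - ρ ^ 2 ∈ Ideal.span {algebraMap O A0 τ})
    (hcr : Cross τ Q Q' A0) (hcr' : Cross τ' Q' Q A0)
    {L : Type} [Field L] [Algebra O L] [Algebra K L] [IsScalarTower O K L] {θ : L}
    (hθ : aeval θ (fK f K) = 0) (htop : IntermediateField.adjoin K {θ} = ⊤)
    {R : Type} [CommRing R] [IsDedekindDomain R] [Algebra O R] [Algebra R L]
    [IsScalarTower O R L] [IsFractionRing R L] [IsIntegralClosure R O L] :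
    (∀ (i : Fin (r + 1)) (w : HeightOneSpectrum R), IsPw 2 (w.valuation L (aeval θ (Q i)))) ∧
    (∀ (i : Fin (r' + 1)) (w : HeightOneSpectrum R), IsPw 2 (w.valuation L (aeval θ (Q' i)))) ∧
    (∀ z : L, z ≠ 0 → (∀ w : HeightOneSpectrum R, IsPw 2 (w.valuation L z)) →
      (∃ u : K, Algebra.norm K z = u ^ 2) →
      ∃ (e : Fin (r + 1) → ℕ) (e' : Fin (r' + 1) → ℕ) (y : L), y ≠ 0 ∧
        z = (∏ i, aeval θ (Q i) ^ e i) * (∏ i, aeval θ (Q' i) ^ e' i) * y ^ 2) ∧
    ∀ (e : Fin r → ℕ) (e' : Fin r' → ℕ) (w : L), w ≠ 0 →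
      (((∏ j, aeval θ (Q j.succ) ^ e j) * ∏ j, aeval θ (Q' j.succ) ^ e' j) ^ f.natDegree = w ^ 2 ∨
        ((∏ j, aeval θ (Q j.succ) ^ e j) * ∏ j, aeval θ (Q' j.succ) ^ e' j) ^ f.natDegree =
          -w ^ 2) → (∀ j, 2 ∣ e j) ∧ ∀ j, 2 ∣ e' j := by
  haveI := hq₀.fin
  haveI := hq.fin
  haveI := hq₀.separable one_lt_two
  haveI := hq.separable one_lt_two
  have hsep₀ : (fK f K0).Separable := hf.sep_of hfs₀.inj hirr₀
  have hsepF : (fK f F).Separable := by
    rw [← fK_alg (K' := K0) (K := F)]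
    exact hsep₀.map
  have hsep : (fK f K).Separable := by
    rw [← fK_alg (K' := F) (K := K)]
    exact hsepF.map
  have hm₀ : (fK f K0).Monic := fK_monic hf _
  have hmF : (fK f F).Monic := fK_monic hf _
  have hm : (fK f K).Monic := fK_monic hf _
  -- the field `F(θ)`
  letI : Algebra F L := ((algebraMap K L).comp (algebraMap F K)).toAlgebra
  haveI : IsScalarTower F K L := IsScalarTower.of_algebraMap_eq fun _ => rfl
  haveI : IsScalarTower O F L := IsScalarTower.of_algebraMap_eq fun p => by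
    show algebraMap O L p = algebraMap K L (algebraMap F K (algebraMap O F p))
    rw [← IsScalarTower.algebraMap_apply O F K, ← IsScalarTower.algebraMap_apply O K L]
  obtain ⟨LF, l1, l2, l3, l4, θF, l5, l6, l7, rfl, htopF⟩ := exists_sub (O := O) (K' := F) θ
  have hθF : aeval θF (fK f F) = 0 := by
    apply (algebraMap LF L).injective
    rw [← aeval_algebraMap_apply, ← aeval_map_algebraMap K, fK_alg, hθ, map_zero]
  -- the field `K0(θ)`
  letI : Algebra K0 LF := ((algebraMap F LF).comp (algebraMap K0 F)).toAlgebra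
  haveI : IsScalarTower K0 F LF := IsScalarTower.of_algebraMap_eq fun _ => rfl
  haveI : IsScalarTower O K0 LF := IsScalarTower.of_algebraMap_eq fun p => by
    show algebraMap O LF p = algebraMap F LF (algebraMap K0 F (algebraMap O K0 p))
    rw [← IsScalarTower.algebraMap_apply O K0 F, ← IsScalarTower.algebraMap_apply O F LF]
  obtain ⟨L0, m1, m2, m3, m4, θ0, m5, m6, m7, rfl, htop₀⟩ := exists_sub (O := O) (K' := K0) θF
  have hθ₀ : aeval θ0 (fK f K0) = 0 := by
    apply (algebraMap L0 LF).injective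
    rw [← aeval_algebraMap_apply, ← aeval_map_algebraMap F, fK_alg, hθF, map_zero]
  have hfsF : FS O F := hfs₀.trans hq₀.fin (hq₀.separable one_lt_two)
  have hfs : FS O K := hfsF.trans hq.fin (hq.separable one_lt_two)
  haveI : FiniteDimensional K0 L0 := Pool.Agent.Q45.TW.fin_of hm₀ hθ₀ htop₀
  haveI : FiniteDimensional F LF := Pool.Agent.Q45.TW.fin_of hmF hθF htopF
  haveI : FiniteDimensional K L := Pool.Agent.Q45.TW.fin_of hm hθ htop
  have hfsL0 : FS O L0 := hfs₀.trans (Pool.Agent.Q45.TW.fin_of hm₀ hθ₀ htop₀)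
    (Pool.Agent.Q45.TW.sep_of hsep₀ hθ₀ htop₀)
  have hfsLF : FS O LF := hfsF.trans (Pool.Agent.Q45.TW.fin_of hmF hθF htopF)
    (Pool.Agent.Q45.TW.sep_of hsepF hθF htopF)
  have hfsL : FS O L := hfs.trans (Pool.Agent.Q45.TW.fin_of hm hθ htop)
    (Pool.Agent.Q45.TW.sep_of hsep hθ htop)
  have hcop2 : (2 : ℕ).Coprime (fK f K0).natDegree := by
    rw [fK_natDegree hf]; exact hf.cop
  have hcop2F : (2 : ℕ).Coprime (fK f F).natDegree := by
    rw [fK_natDegree hf]; exact hf.cop
  have hqL₀' := kn_up hq₀ htop₀ htopF hm₀ hcop2 hirr₀ hθ₀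
  have hqL' := kn_up hq htopF htop hmF hcop2F hirrF hθF
  have hqL₀ : IsKN 2 (algebraMap O L0 τ') (algebraMap F LF t) := by
    rwa [← IsScalarTower.algebraMap_apply O K0 L0] at hqL₀'
  have hqL : IsKN 2 (algebraMap O LF τ) (algebraMap K L s) := by
    rwa [← IsScalarTower.algebraMap_apply O F LF] at hqL'
  haveI := hqL₀.fin
  haveI := hqL.fin
  haveI := hqL₀.galois one_lt_two
  haveI := hqL.galois one_lt_two
  obtain ⟨R0, n1, n2, n3, n4, n5⟩ := exists_ic (O := O) L0
  haveI := hfsL0.ded R0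
  haveI := hfsL0.frac R0
  haveI := hfsL0.finite R0
  obtain ⟨RF, o1, o2, o3, o4, o5⟩ := exists_ic (O := O) LF
  haveI := hfsLF.ded RF
  haveI := hfsLF.frac RF
  haveI := hfsLF.finite RF
  haveI := hfsL.finite R
  -- `R0` and `RF`
  obtain ⟨φ0, hφ01, hφ02⟩ := exists_alg (O := O) (K' := L0) (K := LF) R0 RF
  letI : Algebra R0 RF := φ0.toAlgebra
  haveI : IsScalarTower O R0 RF := IsScalarTower.of_algebraMap_eq fun p => (hφ02 p).symm
  haveI : Module.Finite R0 RF := Module.Finite.of_restrictScalars_finite O R0 RF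
  haveI : Algebra.IsIntegral R0 RF := Algebra.IsIntegral.of_finite R0 RF
  haveI : Module.IsTorsionFree R0 RF := by
    rw [Module.isTorsionFree_iff_algebraMap_injective]
    exact tf_of (K' := L0) (K := LF) (IsFractionRing.injective R0 L0) hφ01
  letI : Algebra R0 LF := ((algebraMap L0 LF).comp (algebraMap R0 L0)).toAlgebra
  haveI : IsScalarTower R0 L0 LF := IsScalarTower.of_algebraMap_eq fun _ => rfl
  haveI : IsScalarTower R0 RF LF := IsScalarTower.of_algebraMap_eq fun a => (hφ01 a).symm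
  -- `RF` and `R`
  obtain ⟨φF, hφF1, hφF2⟩ := exists_alg (O := O) (K' := LF) (K := L) RF R
  letI : Algebra RF R := φF.toAlgebra
  haveI : IsScalarTower O RF R := IsScalarTower.of_algebraMap_eq fun p => (hφF2 p).symm
  haveI : Module.Finite RF R := Module.Finite.of_restrictScalars_finite O RF R
  haveI : Algebra.IsIntegral RF R := Algebra.IsIntegral.of_finite RF R
  haveI : Module.IsTorsionFree RF R := by
    rw [Module.isTorsionFree_iff_algebraMap_injective]
    exact tf_of (K' := LF) (K := L) (IsFractionRing.injective RF LF) hφF1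
  letI : Algebra RF L := ((algebraMap LF L).comp (algebraMap RF LF)).toAlgebra
  haveI : IsScalarTower RF LF L := IsScalarTower.of_algebraMap_eq fun _ => rfl
  haveI : IsScalarTower RF R L := IsScalarTower.of_algebraMap_eq fun a => (hφF1 a).symm
  -- `A0` and `R0`
  haveI := hfs₀.finite A0
  obtain ⟨ψ, hψ1, hψ2⟩ := exists_alg (O := O) (K' := K0) (K := L0) A0 R0
  letI : Algebra A0 R0 := ψ.toAlgebra
  haveI : IsScalarTower O A0 R0 := IsScalarTower.of_algebraMap_eq fun p => (hψ2 p).symm
  haveI : Module.Finite A0 R0 := Module.Finite.of_restrictScalars_finite O A0 R0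
  haveI : Algebra.IsIntegral A0 R0 := Algebra.IsIntegral.of_finite A0 R0
  haveI : Module.IsTorsionFree A0 R0 := by
    rw [Module.isTorsionFree_iff_algebraMap_injective]
    exact tf_of (K' := K0) (K := L0) (IsFractionRing.injective A0 K0) hψ1
  have hcomp : ∀ a : A0, algebraMap K0 L0 (algebraMap A0 K0 a) =
      algebraMap R0 L0 (algebraMap A0 R0 a) := fun a => (hψ1 a).symm
  -- the root
  obtain ⟨θR, rfl⟩ : ∃ θR : R0, algebraMap R0 L0 θR = θ0 := by
    apply (IsIntegralClosure.isIntegral_iff (A := R0) (R := O)).1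
    refine ⟨f, hf.monic, ?_⟩
    have h3 := hθ₀
    unfold fK at h3
    rwa [aeval_map_algebraMap, aeval_def] at h3
  obtain ⟨q, P⟩ := exists_pl2 (A := A0) (R := R0) (K := K0) (L := L0) hf hirr₀ hsep₀ hθ₀ htop₀
    hcomp hM
  obtain ⟨q', P'⟩ := exists_pl2 (A := A0) (R := R0) (K := K0) (L := L0) hf hirr₀ hsep₀ hθ₀ htop₀
    hcomp hM'
  have hgL : ∀ G : O[X], aeval (algebraMap LF L (algebraMap L0 LF (algebraMap R0 L0 θR))) G =
      algebraMap LF L (algebraMap L0 LF (algebraMap R0 L0 (aeval θR G))) := by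
    intro G
    rw [aeval_algebraMap_apply, aeval_algebraMap_apply, aeval_algebraMap_apply]
  have h2R0 : IsUnit ((2 : ℕ) : R0) := by
    have h1 := H.unit.map (algebraMap O R0)
    rwa [map_natCast] at h1
  have h2RF : IsUnit ((2 : ℕ) : RF) := by
    have h1 := H.unit.map (algebraMap O RF)
    rwa [map_natCast] at h1
  have hmem0 : ∀ (w : HeightOneSpectrum RF) (a : O),
      algebraMap O RF a ∈ w.asIdeal ↔ algebraMap O R0 a ∈ (w.under R0).asIdeal := by
    intro w a
    rw [IsScalarTower.algebraMap_apply O R0 RF]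
    exact Iff.rfl
  have hmemF : ∀ (w : HeightOneSpectrum R) (a : O),
      algebraMap O R a ∈ w.asIdeal ↔ algebraMap O RF a ∈ (w.under RF).asIdeal := by
    intro w a
    rw [IsScalarTower.algebraMap_apply O RF R]
    exact Iff.rfl
  have hqL₀R : IsKN 2 (algebraMap R0 L0 (algebraMap O R0 τ')) (algebraMap F LF t) := by
    rwa [← IsScalarTower.algebraMap_apply O R0 L0]
  have hqLR : IsKN 2 (algebraMap RF LF (algebraMap O RF τ)) (algebraMap K L s) := by
    rwa [← IsScalarTower.algebraMap_apply O RF LF]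
  -- the valuations of elements of `L0` in `L`
  have hval : ∀ (w : HeightOneSpectrum R) (x : L0),
      w.valuation L (algebraMap LF L (algebraMap L0 LF x)) =
        (((w.under RF).under R0).valuation L0 x ^
          ((w.under RF).under R0).asIdeal.ramificationIdx' (w.under RF).asIdeal) ^
          (w.under RF).asIdeal.ramificationIdx' w.asIdeal := by
    intro w x
    rw [val_under (A := RF), val_under (A := R0)]
  refine ⟨?_, ?_, ?_, ?_⟩
  · -- the valuations
    intro i w
    rw [hgL, hval]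
    by_cases hw : algebraMap O R0 τ ∈ ((w.under RF).under R0).asIdeal
    · obtain ⟨j, hj⟩ := P.v3 _ hw
      have hτ' : algebraMap O R0 τ' ∉ ((w.under RF).under R0).asIdeal :=
        not_mem_of_cop (A0 := A0) hcop _ hw
      have h1 : (w.under RF).valuation LF (algebraMap O LF τ) = exp (-1 : ℤ) := by
        rw [IsScalarTower.algebraMap_apply O L0 LF, val_under (A := R0),
          ram_one one_lt_two hqL₀R h2R0 _ hτ', pow_one, hj]
        exact P.v2 j
      obtain ⟨he, -, -⟩ := ram_tot (A := RF) (B := R) (K := LF) (L := L) one_lt_two hqL w h1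
      rw [he]
      exact IsPw.self _
    · rw [P.v4 _ hw i, one_pow, one_pow]
      exact ⟨1, (one_pow _).symm⟩
  · intro i w
    rw [hgL, hval]
    by_cases hw : algebraMap O R0 τ' ∈ ((w.under RF).under R0).asIdeal
    · obtain ⟨j, hj⟩ := P'.v3 _ hw
      have h1 : ((w.under RF).under R0).valuation L0 (algebraMap O L0 τ') = exp (-1 : ℤ) := by
        rw [hj]
        exact P'.v2 j
      obtain ⟨he, -, -⟩ := ram_tot (A := R0) (B := RF) (K := L0) (L := LF) one_lt_two hqL₀ _ h1
      rw [he]
      exact (IsPw.self _).pow _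
    · rw [P'.v4 _ hw i, one_pow, one_pow]
      exact ⟨1, (one_pow _).symm⟩
  · -- the classes
    rintro z hz hev ⟨u, hu⟩
    obtain ⟨c, hc0, hc⟩ := step_one (RF := RF) (R := R) H hf htriv hq₀ hqL₀ hq hqL hfs₀ hθ₀ htopF htop
      hirr₀ hirrF hsepF hM hM' hcop hcr hρ P P' hz hev hu
    obtain ⟨z1, v, c1, hz1, hv, hc1, hzv⟩ := desc_class hf hq hθF htopF htop hirrF hirr hsepF hz hu hc
    have hev1 : ∀ w : HeightOneSpectrum RF, algebraMap O RF τ ∉ w.asIdeal →
        IsPw 2 (w.valuation LF z1) := by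
      intro w hw
      refine pw_down' (B := R) hqLR h2RF w hw fun W _ => ?_
      have h1 := hev W
      rw [hzv, map_mul, map_pow] at h1
      exact IsPw.of_mul ((Valuation.ne_zero_iff _).2 hv) h1
    obtain ⟨c2, hc20, hc2⟩ := step_two (RF := RF) H hf htriv hq₀ hqL₀ hθ₀ htop₀ hirr₀ hsep₀ hcomp hM
      hM' hcop hcr' P P' hz1 hev1 hc1
    obtain ⟨z2, v2, c3, hz2, hv2, hc3, hzv2⟩ := desc_class hf hq₀ hθ₀ htop₀ htopF hirr₀ hirrF hsep₀
      hz1 hc1 hc2
    obtain ⟨e, e', y, hy0, hy⟩ := base_two hf htriv hθ₀ htop₀ hirr₀ hsep₀ hcomp hM hM' hcop P P' hz2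
      hc3 (fun w hw hw' => by
        refine pw_down' (B := RF) hqL₀R h2R0 w hw' fun W hW => ?_
        have h1 := hev1 W (by rw [hmem0, hW]; exact hw)
        rw [hzv2, map_mul, map_pow] at h1
        exact IsPw.of_mul ((Valuation.ne_zero_iff _).2 hv2) h1)
    refine ⟨e, e', algebraMap LF L (algebraMap L0 LF y * v2) * v,
      mul_ne_zero ((_root_.map_ne_zero _).2 (mul_ne_zero ((_root_.map_ne_zero _).2 hy0) hv2)) hv, ?_⟩
    simp only [hgL]
    rw [hzv, hzv2, hy, map_mul (algebraMap L0 LF), map_mul (algebraMap L0 LF),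
      map_mul (algebraMap LF L), map_mul (algebraMap LF L), map_mul (algebraMap LF L), map_prod,
      map_prod, map_prod, map_prod]
    simp only [map_pow, map_mul]
    ring
  · -- independence
    intro e e' w hw0 hw
    set Y : L0 := ((∏ j, algebraMap R0 L0 (aeval θR (Q (Fin.succ j))) ^ e j) *
      ∏ j, algebraMap R0 L0 (aeval θR (Q' (Fin.succ j))) ^ e' j) ^ f.natDegree with hY
    have hYL : ((∏ j, aeval (algebraMap LF L (algebraMap L0 LF (algebraMap R0 L0 θR)))
        (Q (Fin.succ j)) ^ e j) * ∏ j, aeval (algebraMap LF L (algebraMap L0 LF (algebraMap R0 L0 θR)))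
        (Q' (Fin.succ j)) ^ e' j) ^ f.natDegree = algebraMap LF L (algebraMap L0 LF Y) := by
      rw [hY]
      simp only [hgL, map_pow, map_mul, map_prod]
    rw [hYL] at hw
    have hY0 : Y ≠ 0 := by
      rw [hY]
      refine pow_ne_zero _ (mul_ne_zero ?_ ?_)
      · rw [Finset.prod_ne_zero_iff]
        exact fun i _ => pow_ne_zero _ (P.g_ne _)
      · rw [Finset.prod_ne_zero_iff]
        exact fun i _ => pow_ne_zero _ (P'.g_ne _)
    obtain ⟨Z, hZ0, hZ, hZv⟩ : ∃ Z : L0, Z ≠ 0 ∧ w ^ 2 = algebraMap LF L (algebraMap L0 LF Z) ∧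
        ∀ v : HeightOneSpectrum R0, v.valuation L0 Z = v.valuation L0 Y := by
      rcases hw with h | h
      · exact ⟨Y, hY0, h.symm, fun v => rfl⟩
      · exact ⟨-Y, neg_ne_zero.2 hY0, by rw [map_neg, map_neg, h, neg_neg],
          fun v => Valuation.map_neg _ _⟩
    obtain ⟨d, k, hd0, hd⟩ := hqL.pw_baseN (n := 2) (M := 1) rfl one_lt_two
      ((_root_.map_ne_zero _).2 hZ0) hZ
    have hτL : algebraMap O L0 τ ≠ 0 := by
      intro h
      have h1 := P.v2 0
      rw [h, map_zero] at h1
      exact exp_ne_zero h1.symm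
    have hτk : algebraMap O LF τ ^ k = algebraMap L0 LF (algebraMap O L0 τ ^ k) := by
      rw [map_pow, ← IsScalarTower.algebraMap_apply O L0 LF]
    have hd2 : (d * algebraMap L0 LF (algebraMap O L0 τ ^ k)) ^ 2 =
        algebraMap L0 LF (Z * algebraMap O L0 τ ^ k) := by
      rw [map_mul, hd, hτk]
      ring
    obtain ⟨d', k', hd'0, hd'⟩ := hqL₀.pw_baseN (n := 2) (M := 1) rfl one_lt_two
      (mul_ne_zero hZ0 (pow_ne_zero _ hτL)) hd2
    -- the valuations
    have hv00 : (q 0).valuation L0 Y = 1 := by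
      rw [hY, map_pow, map_mul, map_prod, map_prod, Finset.prod_eq_one, Finset.prod_eq_one, one_mul,
        one_pow]
      · intro i _
        rw [map_pow, P'.v4 _ (not_mem_of_cop (A0 := A0) hcop _ (P.tau_mem 0)), one_pow]
      · intro i _
        rw [map_pow, P.v1, if_neg (Fin.succ_ne_zero i), one_pow]
    have hv00' : (q' 0).valuation L0 Y = 1 := by
      rw [hY, map_pow, map_mul, map_prod, map_prod, Finset.prod_eq_one, Finset.prod_eq_one, one_mul,
        one_pow]
      · intro i _
        rw [map_pow, P'.v1, if_neg (Fin.succ_ne_zero i), one_pow]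
      · intro i _
        rw [map_pow, P.v4 _ (not_mem_of_cop (A0 := A0) hcop.symm _ (P'.tau_mem 0)), one_pow]
    have hvτ' : ∀ i, (q i).valuation L0 (algebraMap O L0 τ') = 1 := by
      intro i
      rw [IsScalarTower.algebraMap_apply O R0 L0]
      exact val_one (not_mem_of_cop (A0 := A0) hcop _ (P.tau_mem i))
    have hvτ : ∀ i, (q' i).valuation L0 (algebraMap O L0 τ) = 1 := by
      intro i
      rw [IsScalarTower.algebraMap_apply O R0 L0]
      exact val_one (not_mem_of_cop (A0 := A0) hcop.symm _ (P'.tau_mem i))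
    have hk : 2 ∣ k := by
      have h1 := congrArg ((q 0).valuation L0) hd'
      rw [map_mul, hZv, hv00, one_mul, map_pow, P.v2, map_mul, map_pow, map_pow, hvτ', one_pow,
        mul_one] at h1
      exact dvd_exp two_ne_zero ⟨_, h1⟩
    have hk' : 2 ∣ k' := by
      have h1 := congrArg ((q' 0).valuation L0) hd'
      have hdv : (q' 0).valuation L0 d' ≠ 0 := (Valuation.ne_zero_iff _).2 hd'0
      rw [map_mul, hZv, hv00', one_mul, map_pow, hvτ, one_pow, map_mul, map_pow, map_pow,
        P'.v2] at h1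
      refine dvd_exp two_ne_zero ⟨((q' 0).valuation L0 d')⁻¹, ?_⟩
      rw [inv_pow]
      exact eq_inv_of_mul_eq_one_right h1.symm
    obtain ⟨a, rfl⟩ := hk
    obtain ⟨a', rfl⟩ := hk'
    have hZsq : ∃ y : L0, y ≠ 0 ∧ Z = y ^ 2 := by
      have hτ'L : algebraMap O L0 τ' ≠ 0 := by
        intro h
        have h1 := P'.v2 0
        rw [h, map_zero] at h1
        exact exp_ne_zero h1.symm
      refine ⟨d' * algebraMap O L0 τ' ^ a' / algebraMap O L0 τ ^ a,
        div_ne_zero (mul_ne_zero hd'0 (pow_ne_zero _ hτ'L)) (pow_ne_zero _ hτL), ?_⟩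
      rw [div_pow, eq_div_iff (pow_ne_zero _ (pow_ne_zero _ hτL)), ← pow_mul, mul_comm a 2, hd',
        mul_pow, ← pow_mul, mul_comm a' 2]
    obtain ⟨y, hy0, hy⟩ := hZsq
    have hodd : (2 : ℕ).Coprime f.natDegree := hf.cop
    constructor
    · intro j
      have h1 := congrArg ((q j.succ).valuation L0) hy
      have h3 : (q j.succ).valuation L0 Y = exp (-1 : ℤ) ^ (e j * f.natDegree) := by
        rw [hY, map_pow, map_mul, map_prod, map_prod, Finset.prod_eq_single j, map_pow, P.v1,
          if_pos rfl, Finset.prod_eq_one, mul_one, ← pow_mul]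
        · intro i _
          rw [map_pow, P'.v4 _ (not_mem_of_cop (A0 := A0) hcop _ (P.tau_mem _)), one_pow]
        · intro i _ hne
          rw [map_pow, P.v1, if_neg (fun h => hne (Fin.succ_injective _ h)), one_pow]
        · intro h
          exact absurd (Finset.mem_univ j) h
      rw [hZv, h3, map_pow] at h1
      exact hodd.dvd_of_dvd_mul_right (dvd_exp two_ne_zero ⟨_, h1⟩)
    · intro j
      have h1 := congrArg ((q' j.succ).valuation L0) hy
      have h3 : (q' j.succ).valuation L0 Y = exp (-1 : ℤ) ^ (e' j * f.natDegree) := by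
        rw [hY, map_pow, map_mul, map_prod, map_prod, Finset.prod_eq_one, one_mul,
          Finset.prod_eq_single j, map_pow, P'.v1, if_pos rfl, ← pow_mul]
        · intro i _ hne
          rw [map_pow, P'.v1, if_neg (fun h => hne (Fin.succ_injective _ h)), one_pow]
        · intro h
          exact absurd (Finset.mem_univ j) h
        · intro i _
          rw [map_pow, P.v4 _ (not_mem_of_cop (A0 := A0) hcop.symm _ (P'.tau_mem _)), one_pow]
      rw [hZv, h3, map_pow] at h1
      exact hodd.dvd_of_dvd_mul_right (dvd_exp two_ne_zero ⟨_, h1⟩)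

end main

end Pool.Agent.H89.GT
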