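import Pool.Agent.H89.GT.Step

/-!
# The norms of the classes from the biquadratic extension
-/

set_option autoImplicit false
set_option linter.all false

open Polynomial IsDedekindDomain WithZero
open scoped Classical

namespace Pool.Agent.H89.GT

open Pool.Agent.H89.GB
open Pool.Agent.H89.GM
open Pool.Agent.H89.KT (root_of norm_gal norm_pw pw_hom)
open Pool.Agent.Y160.SE (IsPw)
open Pool.Agent.Q45.TT (val_under ram_ne_zero exists_above sum_ef tf_of)

section desc

variable {O : Type} [CommRing O] [IsDedekindDomain O] {f : O[X]} {K' K L' L : Type}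
  [Field K'] [Field K] [Field L'] [Field L] [Algebra O K'] [Algebra O K] [Algebra O L'] [Algebra O L]
  [Algebra K' K] [Algebra K' L'] [Algebra K L] [Algebra L' L] [Algebra K' L]
  [IsScalarTower K' K L] [IsScalarTower K' L' L] [IsScalarTower O K' K]
  [IsScalarTower O K' L'] [IsScalarTower O L' L] [IsScalarTower O K L]
  {D : K'} {s : K}

/-- A class whose norm is a square comes from the smaller field. -/
theorem desc_class (hf : Pol 2 f) (hq : IsKN 2 D s) {θ' : L'}
    (hθ' : aeval θ' (fK f K') = 0)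
    (htop' : IntermediateField.adjoin K' {θ'} = ⊤)
    (htop : IntermediateField.adjoin K {algebraMap L' L θ'} = ⊤)
    (hirr' : Irreducible (fK f K')) (hirr : Irreducible (fK f K)) (hsep' : (fK f K').Separable)
    {z : L} (hz : z ≠ 0) {u : K} (hu : Algebra.norm K z = u ^ 2) {c : L'}
    (hc : Algebra.norm L' z = c ^ 2) :
    ∃ (z' : L') (v : L) (c : K'), z' ≠ 0 ∧ v ≠ 0 ∧ Algebra.norm K' z' = c ^ 2 ∧
      z = algebraMap L' L z' * v ^ 2 := by
  have hqL : IsKN 2 (algebraMap K' L' D) (algebraMap K L s) :=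
    kn_up hq htop' htop (fK_monic hf K') (by rw [fK_natDegree hf]; exact hf.cop) hirr' hθ'
  haveI := hqL.fin
  obtain ⟨γ, hγ, hγ2, hno, -⟩ := gen_two hqL
  obtain ⟨ζ, hζ⟩ := hq.zeta
  have hζ1 : ζ = -1 := hζ.eq_neg_one_of_two_right
  subst hζ1
  have hc0 : c ≠ 0 := by
    rintro rfl
    rw [zero_pow two_ne_zero] at hc
    exact (Algebra.norm_ne_zero_iff).2 hz hc
  refine fixed_class (M := 1) Nat.prime_two hf rfl one_ne_zero hf.cop hq hθ' htop' htop hirr' hirr
    hsep' hζ (γ := γ) (by rw [hγ, map_neg, map_neg, map_one, map_one, neg_one_mul]) hγ2 hz hu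
    (w := algebraMap L' L c / z) (div_ne_zero ((_root_.map_ne_zero _).2 hc0) hz) ?_
  rw [div_pow, ← map_pow, ← hc, hno]
  field_simp

end desc

section step

variable {O : Type} [CommRing O] [IsDedekindDomain O] {f : O[X]} {τ τ' : O} {r r' : ℕ}
  {Q : Fin (r + 1) → O[X]} {Q' : Fin (r' + 1) → O[X]}
  {K0 L0 A0 R0 : Type} [Field K0] [Field L0] [Algebra O K0] [Algebra O L0]
  [Algebra K0 L0] [IsScalarTower O K0 L0] [CommRing A0] [IsDedekindDomain A0] [CommRing R0]
  [IsDedekindDomain R0] [Algebra O A0] [Algebra O R0] [Algebra A0 K0] [Algebra R0 L0]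
  [IsScalarTower O A0 K0] [IsScalarTower O R0 L0] [IsFractionRing A0 K0] [IsFractionRing R0 L0]
  [IsIntegralClosure A0 O K0]
  [IsIntegralClosure R0 O L0] [Algebra A0 R0] [IsScalarTower O A0 R0] [Module.Finite A0 R0]
  [Module.IsTorsionFree A0 R0]
  {F LF RF : Type} [Field F] [Field LF] [Algebra O F] [Algebra O LF] [Algebra K0 F]
  [IsScalarTower O K0 F] [Algebra F LF] [IsScalarTower O F LF] [Algebra L0 LF]
  [IsScalarTower O L0 LF] [Algebra K0 LF] [IsScalarTower K0 F LF] [IsScalarTower K0 L0 LF]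
  [CommRing RF] [IsDedekindDomain RF] [Algebra O RF] [Algebra RF LF] [IsScalarTower O RF LF]
  [IsFractionRing RF LF] [IsIntegralClosure RF O LF] [Algebra R0 RF] [IsScalarTower O R0 RF]
  [Module.Finite R0 RF] [Module.IsTorsionFree R0 RF] [Algebra R0 LF] [IsScalarTower R0 L0 LF]
  [IsScalarTower R0 RF LF]
  {K L R : Type} [Field K] [Field L] [Algebra O K] [Algebra O L] [Algebra F K]
  [IsScalarTower O F K] [Algebra K L] [IsScalarTower O K L] [Algebra LF L]
  [IsScalarTower O LF L] [Algebra F L] [IsScalarTower F K L] [IsScalarTower F LF L]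
  [CommRing R] [IsDedekindDomain R] [Algebra O R] [Algebra R L] [IsScalarTower O R L]
  [IsFractionRing R L] [IsIntegralClosure R O L] [Algebra RF R] [IsScalarTower O RF R]
  [Module.Finite RF R] [Module.IsTorsionFree RF R] [Algebra RF L] [IsScalarTower RF LF L]
  [IsScalarTower RF R L]

include RF in
/-- **The norm of a class from the biquadratic extension to the quadratic extension.** -/
theorem step_one (H : Base 2 O) (hf : Pol 2 f) (htriv : Triv 2 f K0) {t : F} {s : K}
    (hq₀ : IsKN 2 (algebraMap O K0 τ') t) (hqL₀ : IsKN 2 (algebraMap O L0 τ') (algebraMap F LF t))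
    (hq : IsKN 2 (algebraMap O F τ) s) (hqL : IsKN 2 (algebraMap O LF τ) (algebraMap K L s))
    (hfs₀ : FS O K0) {θ : R0} (hθ : aeval (algebraMap R0 L0 θ) (fK f K0) = 0)
    (htopF : IntermediateField.adjoin F {algebraMap L0 LF (algebraMap R0 L0 θ)} = ⊤)
    (htopK : IntermediateField.adjoin K {algebraMap LF L (algebraMap L0 LF (algebraMap R0 L0 θ))} = ⊤)
    (hirr : Irreducible (fK f K0)) (hirrF : Irreducible (fK f F)) (hsepF : (fK f F).Separable)
    (hM : Marked f τ Q A0) (hM' : Marked f τ' Q' A0)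
    (hcop : IsCoprime (algebraMap O A0 τ) (algebraMap O A0 τ')) (hcr : Cross τ Q Q' A0)
    {ρ : A0} (hρ : algebraMap O A0 τ' - ρ ^ 2 ∈ Ideal.span {algebraMap O A0 τ})
    {q : Fin (r + 1) → HeightOneSpectrum R0} (P : Pl τ Q A0 R0 L0 θ q)
    {q' : Fin (r' + 1) → HeightOneSpectrum R0} (P' : Pl τ' Q' A0 R0 L0 θ q') {z : L} (hz : z ≠ 0)
    (hev : ∀ w : HeightOneSpectrum R, IsPw 2 (w.valuation L z))
    {c : K} (hc : Algebra.norm K z = c ^ 2) :
    ∃ y : LF, y ≠ 0 ∧ Algebra.norm LF z = y ^ 2 := by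
  haveI := hq₀.fin
  haveI := hq.fin
  haveI := hqL₀.fin
  haveI := hqL.fin
  have hmF := fK_monic hf F
  have hθL : aeval (algebraMap L0 LF (algebraMap R0 L0 θ)) (fK f F) = 0 := by
    rw [← fK_alg (K' := K0) (K := F), aeval_map_algebraMap, aeval_algebraMap_apply, hθ, map_zero]
  haveI : FiniteDimensional F LF := Pool.Agent.Q45.TW.fin_of hmF hθL htopF
  haveI : FiniteDimensional F L := Module.Finite.trans LF L
  haveI : FiniteDimensional K L := Module.Finite.of_restrictScalars_finite F K L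
  have h2R : IsUnit ((2 : ℕ) : R0) := by
    have h1 := H.unit.map (algebraMap O R0)
    rwa [map_natCast] at h1
  have hn0 : Algebra.norm LF z ≠ 0 := (Algebra.norm_ne_zero_iff).2 hz
  have hno : Algebra.norm F (Algebra.norm LF z) = (Algebra.norm F c) ^ 2 := by
    rw [Algebra.norm_norm, ← map_pow, ← hc, Algebra.norm_norm]
  have hevn : ∀ v : HeightOneSpectrum RF, IsPw 2 (v.valuation LF (Algebra.norm LF z)) :=
    fun v => norm_pw (A := RF) (R := R) (K := LF) (L := L) two_ne_zero hz hev v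
  have hq₀1 : IsKN (2 ^ 1) (algebraMap O K0 τ') t := by rw [pow_one]; exact hq₀
  obtain ⟨-, hcl, -⟩ := mark_main (m := 1) (l := 1) H hf one_ne_zero le_rfl hq₀1 hfs₀ hirr hirrF
    htriv hM' (Or.inl (by norm_num)) hθL htopF (R := RF)
  obtain ⟨a, y, hy0, hy⟩ := hcl _ hn0 hevn ⟨_, hno⟩
  have hev' : ∀ G : O[X], aeval (algebraMap L0 LF (algebraMap R0 L0 θ)) G =
      algebraMap L0 LF (algebraMap R0 L0 (aeval θ G)) := by
    intro G
    rw [aeval_algebraMap_apply, aeval_algebraMap_apply]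
  simp only [hev'] at hy
  have hU : ∀ b : Fin (r' + 1) → ℕ, algebraMap R0 L0 (aeval θ (∏ i, Q' i ^ b i)) =
      ∏ i, algebraMap R0 L0 (aeval θ (Q' i)) ^ b i := by
    intro b
    rw [map_prod, map_prod]
    exact Finset.prod_congr rfl fun i _ => by rw [map_pow, map_pow]
  have hy' : Algebra.norm LF z = algebraMap R0 LF (aeval θ (∏ i, Q' i ^ a i)) * y ^ 2 := by
    rw [hy, IsScalarTower.algebraMap_apply R0 L0 LF, hU, map_prod]
    congr 1
    exact Finset.prod_congr rfl fun i _ => (map_pow _ _ _).symm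
  have hqL₀' : IsKN 2 (algebraMap R0 L0 (algebraMap O R0 τ')) (algebraMap F LF t) := by
    rwa [← IsScalarTower.algebraMap_apply O R0 L0]
  have hqL' : IsKN 2 (algebraMap R0 LF (algebraMap O R0 τ)) (algebraMap K L s) := by
    rwa [IsScalarTower.algebraMap_apply R0 L0 LF, ← IsScalarTower.algebraMap_apply O R0 L0,
      ← IsScalarTower.algebraMap_apply O L0 LF]
  have ha := P.exps hf hM hcr a fun i => by
    have hτi : algebraMap O R0 τ' ∉ (q i).asIdeal :=
      not_mem_of_cop (A0 := A0) hcop (q i) (P.tau_mem i)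
    refine cross_core (RF := RF) (R := R) hqL₀' hqL' h2R (q i) ?_ hτi (P.sq hρ i) hz hev ?_ hy0 hy'
    · rw [← IsScalarTower.algebraMap_apply O R0 L0]
      exact P.v2 i
    · rw [← val_lt (L0 := L0), hU, map_prod, Finset.prod_eq_one]
      · exact lt_irrefl _
      · intro j _
        rw [map_pow, P'.v4 _ hτi j, one_pow]
  obtain ⟨y1, hy10, hy1⟩ := prod_const (fun i => algebraMap L0 LF (algebraMap R0 L0 (aeval θ (Q' i))))
    (fun i => (_root_.map_ne_zero _).2 (P'.g_ne i)) a ha
  have hprod : ∏ i, algebraMap L0 LF (algebraMap R0 L0 (aeval θ (Q' i))) = -algebraMap O LF τ' := by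
    rw [← map_prod, ← map_prod, ← map_prod, hM'.prod, map_sub, aeval_C, map_sub,
      ← aeval_algebraMap_apply]
    have h1 := hθ
    unfold fK at h1
    rw [aeval_map_algebraMap] at h1
    rw [h1, zero_sub, ← IsScalarTower.algebraMap_apply O R0 L0, map_neg,
      ← IsScalarTower.algebraMap_apply O L0 LF]
  have ht : (algebraMap F LF t) ^ 2 = algebraMap O LF τ' := by
    rw [hqL₀.pw, ← IsScalarTower.algebraMap_apply O L0 LF]
  rw [hprod, ← ht] at hy1
  rw [hy1] at hy
  -- the sign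
  set σ : F := (-1) ^ a 0 with hσ
  have hσ1 : σ = 1 ∨ σ = -1 := neg_one_pow_eq_or F _
  set Y : LF := (algebraMap F LF t) ^ a 0 * y1 * y with hY
  have hYz : Algebra.norm LF z = algebraMap F LF σ * Y ^ 2 := by
    rw [hy, hσ, hY, map_pow, map_neg, map_one, neg_pow ((algebraMap F LF t) ^ 2) (a 0)]
    ring
  have ht0 : algebraMap F LF t ≠ 0 := (_root_.map_ne_zero _).2 (hq₀.s_ne one_lt_two)
  have hY0 : Y ≠ 0 := mul_ne_zero (mul_ne_zero (pow_ne_zero _ ht0) hy10) hy0
  have hNY : Algebra.norm F Y ≠ 0 := (Algebra.norm_ne_zero_iff).2 hY0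
  have hn : Module.finrank F LF = f.natDegree := by
    rw [Pool.Agent.Q45.TW.finrank_of hirrF hmF hθL htopF, fK_natDegree hf]
  have h6 : σ ^ f.natDegree = (Algebra.norm F c / Algebra.norm F Y) ^ 2 := by
    rw [div_pow, eq_div_iff (pow_ne_zero 2 hNY), ← hno, hYz]
    conv_rhs => rw [map_mul, Algebra.norm_algebraMap, hn, map_pow]
  obtain ⟨ε, hε0, hε⟩ := sign_pw Nat.prime_two hf.cop hσ1 h6
  refine ⟨algebraMap F LF ε * Y, mul_ne_zero ((_root_.map_ne_zero _).2 hε0) hY0, ?_⟩
  rw [hYz, hε, map_pow]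
  ring

end step

end Pool.Agent.H89.GT
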