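import Pool.Agent.H89.GM.MFin

/-!
# Residue relations for two marked primes
-/

set_option autoImplicit false
set_option linter.all false

open Polynomial IsDedekindDomain WithZero
open scoped Classical

namespace Pool.Agent.H89.GT

open Pool.Agent.H89.GB
open Pool.Agent.H89.GM
open Pool.Agent.H89.KT (root_of norm_gal norm_pw pw_hom)
open Pool.Agent.Y160.SE (IsPw)
open Pool.Agent.Q45.TT (val_under ram_ne_zero exists_above sum_ef tf_of)

section ring

variable {A K B L : Type} [CommRing A] [IsDedekindDomain A] [Field K] [Algebra A K]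
  [IsFractionRing A K] [CommRing B] [IsDedekindDomain B] [Field L] [Algebra B L] [IsFractionRing B L]
  [Algebra K L] [Algebra A B] [Algebra A L] [IsScalarTower A K L] [IsScalarTower A B L]
  [Module.IsTorsionFree A B]

/-- The generator of the Galois group of a quadratic extension. -/
theorem gen_two {D : K} {s : L} (h : IsKN 2 D s) :
    ∃ γ : L ≃ₐ[K] L, γ s = -s ∧ (∀ x, x ∈ Subgroup.zpowers γ) ∧
      (∀ x, algebraMap K L (Algebra.norm K x) = x * γ x) ∧ ∀ x, γ (γ x) = x := by
  have hN : 1 < 2 := one_lt_two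
  obtain ⟨ζ, hζ⟩ := h.zeta
  have hζ1 : ζ = -1 := hζ.eq_neg_one_of_two_right
  obtain ⟨γ, hγ, hγ2⟩ := h.exists_gen hN hζ
  haveI := h.fin
  haveI := h.galois hN
  have hcard : Nat.card (L ≃ₐ[K] L) = 2 := h.card hN
  refine ⟨γ, ?_, hγ2, fun x => norm_two hγ2 hcard x, fun x => ?_⟩
  · rw [hγ, hζ1, map_neg, map_one, neg_one_mul]
  · have h1 : γ ^ 2 = 1 := by
      rw [← hcard]
      exact pow_card_eq_one'
    have h3 : (γ ^ 2) x = x := by rw [h1]; rfl
    rwa [pow_two] at h3

/-- The residue degree at a split place of a quadratic extension. -/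
theorem inert_one [Module.Finite A B] [Algebra.IsIntegral A B] {d : A} {t : L}
    (h : IsKN 2 (algebraMap A K d) t) (h2 : IsUnit ((2 : ℕ) : A)) (w : HeightOneSpectrum B)
    (hd : d ∉ (w.under A).asIdeal) {ρ : A} (hρ : d - ρ ^ 2 ∈ (w.under A).asIdeal) :
    w.asIdeal.inertiaDeg A = 1 := by
  set v := w.under A with hv
  haveI hlo : w.asIdeal.LiesOver v.asIdeal := ⟨rfl⟩
  haveI : v.asIdeal.IsMaximal := v.isMaximal
  haveI := w.isPrime
  haveI := w.isMaximal
  have hmem : ∀ a : A, a ∈ v.asIdeal ↔ algebraMap A B a ∈ w.asIdeal := fun a => Iff.rfl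
  obtain ⟨γ, hγ, hγ2, -, hγγ⟩ := gen_two h
  have hsq : t ^ 2 = algebraMap B L (algebraMap A B d) := by
    rw [h.pw, ← IsScalarTower.algebraMap_apply A K L, ← IsScalarTower.algebraMap_apply A B L]
  obtain ⟨tb, ht⟩ : ∃ tb : B, algebraMap B L tb = t := by
    apply (IsIntegrallyClosed.isIntegral_iff (K := L)).1
    refine IsIntegral.of_pow (n := 2) (by omega) ?_
    rw [hsq]
    exact isIntegral_algebraMap
  have ht2 : tb ^ 2 = algebraMap A B d := by
    apply IsFractionRing.injective B L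
    rw [map_pow, ht, hsq]
  have hinv : ∀ x : L, IsIntegral A x → γ x = x → ∃ a : A, algebraMap A L a = x := by
    intro x hx hg
    obtain ⟨y, hy⟩ := h.fixed one_lt_two hγ2 hg
    have h1 : IsIntegral A y := by
      rw [← hy] at hx
      exact (isIntegral_algebraMap_iff (algebraMap K L).injective).1 hx
    obtain ⟨a, ha⟩ := (IsIntegrallyClosed.isIntegral_iff (K := K)).1 h1
    exact ⟨a, by rw [IsScalarTower.algebraMap_apply A K L, ha, hy]⟩
  have hgi : ∀ x : L, IsIntegral A x → IsIntegral A (γ x) := by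
    intro x hx
    exact hx.map ((γ : L →ₐ[K] L).restrictScalars A)
  have hti : IsIntegral A t := by
    rw [← ht]
    exact (Algebra.IsIntegral.isIntegral tb).algebraMap
  -- the sign of the root
  obtain ⟨ε, hε⟩ : ∃ ε : A, tb - algebraMap A B ε ∈ w.asIdeal := by
    have h1 : (tb - algebraMap A B ρ) * (tb - algebraMap A B (-ρ)) ∈ w.asIdeal := by
      have h3 : (tb - algebraMap A B ρ) * (tb - algebraMap A B (-ρ)) =
          algebraMap A B (d - ρ ^ 2) := by
        rw [map_neg, map_sub, map_pow, ← ht2]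
        ring
      rw [h3]
      exact hρ
    rcases w.isPrime.mem_or_mem h1 with h3 | h3
    · exact ⟨ρ, h3⟩
    · exact ⟨-ρ, h3⟩
  rw [Ideal.inertiaDeg_eq_of_isMaximal v.asIdeal w.asIdeal]
  letI : Field (A ⧸ v.asIdeal) := Ideal.Quotient.field _
  letI : Field (B ⧸ w.asIdeal) := Ideal.Quotient.field _
  refine Algebra.finrank_eq_one_iff_bijective_algebraMap.mpr
    ⟨(algebraMap (A ⧸ v.asIdeal) (B ⧸ w.asIdeal)).injective, fun x => ?_⟩
  obtain ⟨β, rfl⟩ := Ideal.Quotient.mk_surjective x
  have hβi : IsIntegral A (algebraMap B L β) := (Algebra.IsIntegral.isIntegral β).algebraMap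
  obtain ⟨a₀, ha₀⟩ := hinv (algebraMap B L β + γ (algebraMap B L β)) (hβi.add (hgi _ hβi))
    (by rw [map_add, hγγ, add_comm])
  obtain ⟨a₁, ha₁⟩ := hinv ((algebraMap B L β - γ (algebraMap B L β)) * t)
    ((hβi.sub (hgi _ hβi)).mul hti) (by rw [map_mul, map_sub, hγγ, hγ]; ring)
  have hrel : algebraMap A B ((2 : ℕ) * d) * β =
      algebraMap A B (d * a₀) + tb * algebraMap A B a₁ := by
    apply IsFractionRing.injective B L
    have e1 : algebraMap B L (algebraMap A B a₀) =
        algebraMap B L β + γ (algebraMap B L β) := by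
      rw [← IsScalarTower.algebraMap_apply, ha₀]
    have e3 : algebraMap B L (algebraMap A B a₁) =
        (algebraMap B L β - γ (algebraMap B L β)) * t := by
      rw [← IsScalarTower.algebraMap_apply, ha₁]
    rw [map_mul, map_add, map_mul, map_mul, map_mul, map_mul, map_mul, e1, e3, ht, ← hsq]
    push_cast
    rw [map_ofNat, map_ofNat]
    ring
  -- the inverse of `2 d`
  have h2d : (2 : ℕ) * d ∉ v.asIdeal := by
    intro h1
    rcases v.isPrime.mem_or_mem h1 with h3 | h3
    · exact v.isPrime.ne_top (Ideal.eq_top_of_isUnit_mem _ h3 h2)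
    · exact hd h3
  obtain ⟨c, hc⟩ : ∃ c : A, c * ((2 : ℕ) * d) - 1 ∈ v.asIdeal := by
    have h1 : (Ideal.Quotient.mk v.asIdeal ((2 : ℕ) * d)) ≠ 0 := by
      rw [Ne, Ideal.Quotient.eq_zero_iff_mem]
      exact h2d
    obtain ⟨c, hc⟩ := Ideal.Quotient.mk_surjective ((Ideal.Quotient.mk v.asIdeal ((2 : ℕ) * d))⁻¹)
    refine ⟨c, ?_⟩
    rw [← Ideal.Quotient.eq_zero_iff_mem, map_sub, map_mul, hc, map_one, inv_mul_cancel₀ h1, sub_self]
  refine ⟨Ideal.Quotient.mk _ (c * (d * a₀ + ε * a₁)), ?_⟩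
  show Ideal.Quotient.mk w.asIdeal (algebraMap A B (c * (d * a₀ + ε * a₁))) = _
  rw [Ideal.Quotient.eq]
  have h5 : algebraMap A B (c * (d * a₀ + ε * a₁)) - β =
      algebraMap A B (c * ((2 : ℕ) * d) - 1) * β -
        algebraMap A B c * ((tb - algebraMap A B ε) * algebraMap A B a₁) := by
    have h6 : algebraMap A B (c * ((2 : ℕ) * d) - 1) * β =
        algebraMap A B c * (algebraMap A B ((2 : ℕ) * d) * β) - β := by
      rw [map_sub, map_mul, map_one]
      ring
    rw [h6, hrel, map_mul, map_add, map_mul (algebraMap A B) ε]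
    ring
  rw [h5]
  exact w.asIdeal.sub_mem (Ideal.mul_mem_right _ _ hc)
    (Ideal.mul_mem_left _ _ (Ideal.mul_mem_right _ _ hε))

/-- **The residue of the norm at a ramified place.** -/
theorem norm_res [Module.Finite A B] {D : K} {s : L} (h : IsKN 2 D s) (w : HeightOneSpectrum B)
    (hd : (w.under A).valuation K D = exp (-1 : ℤ)) {z : L} (hz : z ≠ 0)
    (hev : IsPw 2 (w.valuation L z)) :
    ∃ c : K, c ≠ 0 ∧ Ap ((w.under A).valuation K) (Algebra.norm K z) (c ^ 2) := by
  haveI : Algebra.IsIntegral A B := Algebra.IsIntegral.of_finite A B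
  obtain ⟨γ, hγ, hγ2, hno, -⟩ := gen_two h
  obtain ⟨he, hs, -⟩ := ram_tot (A := A) one_lt_two h w hd
  obtain ⟨c, i, hc, h1, h3, h4⟩ := lead' (A := A) one_lt_two h w hd (ζ := -1) (by norm_num)
    (γ := γ) (by rw [hγ, map_neg, map_one, neg_one_mul]) hz
  have hcv : (w.under A).valuation K c ≠ 0 := (Valuation.ne_zero_iff _).2 hc
  obtain ⟨j, hj⟩ : ∃ j : ℕ, i = 2 * j := by
    obtain ⟨δ, hδ⟩ := hev
    have hδ0 : δ ≠ 0 := by
      rintro rfl
      rw [zero_pow two_ne_zero] at hδ
      exact (Valuation.ne_zero_iff _).2 hz hδ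
    rw [h4, ← exp_log hcv, ← exp_log hδ0] at hδ
    simp only [← exp_nsmul, ← exp_add] at hδ
    have h10 := exp_injective hδ
    simp only [nsmul_eq_mul] at h10
    have h12 : (2 : ℤ) ∣ i := ⟨log ((w.under A).valuation K c) - log δ, by push_cast at h10; linarith⟩
    exact Int.natCast_dvd_natCast.1 h12
  subst hj
  have hD0 : D ≠ 0 := h.D_ne one_lt_two
  refine ⟨c * D ^ j, mul_ne_zero hc (pow_ne_zero _ hD0), ?_⟩
  have e1 : algebraMap K L c * s ^ (2 * j) = algebraMap K L (c * D ^ j) := by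
    rw [map_mul, map_pow, pow_mul, h.pw]
  rw [e1] at h1 h3
  have e3 : algebraMap K L (-1) ^ (2 * j) * algebraMap K L (c * D ^ j) =
      algebraMap K L (c * D ^ j) := by
    rw [map_neg, map_one, pow_mul, neg_one_sq, one_pow, one_mul]
  rw [e3] at h3
  have h5 : Ap (w.valuation L) (z * γ z) (algebraMap K L ((c * D ^ j) ^ 2)) := by
    rw [map_pow, pow_two]
    exact h1.mul h3.symm
  rw [← hno] at h5
  unfold Ap at h5 ⊢
  rw [← map_sub, val_under (A := A), val_under (A := A), he] at h5
  exact lt_of_pow_lt_pow_left₀ 2 zero_le' h5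

/-- The residue of a unit which is a square up to the square of an element. -/
theorem sq_res (v : HeightOneSpectrum A) {x U y c : K} (hU : v.valuation K U = 1) (hy : y ≠ 0)
    (hx : x = U * y ^ 2) (h : Ap (v.valuation K) x (c ^ 2)) :
    ∃ β : A, v.valuation K (U - algebraMap A K β ^ 2) < 1 := by
  have h3 : Ap (v.valuation K) U ((c / y) ^ 2) := by
    refine Ap.cancel (pow_ne_zero 2 hy) ?_
    have h1 : y ^ 2 * (c / y) ^ 2 = c ^ 2 := by
      rw [← mul_pow, mul_div_cancel₀ _ hy]
    rw [h1, mul_comm, ← hx]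
    exact h
  have hβv : v.valuation K (c / y) = 1 := by
    have h1 := h3.val
    rw [hU, map_pow] at h1
    exact (pow_eq_one_iff.1 h1).resolve_right two_ne_zero
  obtain ⟨β, hβ⟩ := HeightOneSpectrum.exists_valuation_sub_lt_of_integer v (K := K)
    (x := c / y) hβv.le 1
  rw [Units.val_one] at hβ
  refine ⟨β, ?_⟩
  have h1 : Ap (v.valuation K) (c / y) (algebraMap A K β) := by
    unfold Ap
    rw [hβv, Valuation.map_sub_swap]
    exact hβ
  have h4 := h3.trans (h1.pow 2)
  unfold Ap at h4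
  rwa [hU] at h4

/-- Transport of valuations by an automorphism. -/
theorem val_aut (φ : B ≃+* B) (ψ : L ≃+* L) (h : ∀ r, ψ (algebraMap B L r) = algebraMap B L (φ r))
    (w : HeightOneSpectrum B) : ∃ w' : HeightOneSpectrum B, (∀ b, b ∈ w'.asIdeal ↔ φ b ∈ w.asIdeal) ∧
      ∀ z, ∃ e : ℕ, w.valuation L (ψ z) = w'.valuation L z ^ e := by
  have key : ∀ (B' L' : Type) [CommRing B'] [IsDedekindDomain B'] [Field L'] [Algebra B' L']
      [IsFractionRing B' L'] (φ : B ≃+* B') (ψ : L ≃+* L')
      (h : ∀ r, ψ (algebraMap B L r) = algebraMap B' L' (φ r)) (w : HeightOneSpectrum B'),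
      ∃ w' : HeightOneSpectrum B, (∀ b, b ∈ w'.asIdeal ↔ φ b ∈ w.asIdeal) ∧
      ∀ z, ∃ e : ℕ, w.valuation L' (ψ z) = w'.valuation L z ^ e := by
    intro B' L' _ _ _ _ _ φ ψ h w
    letI : Algebra B B' := φ.toRingHom.toAlgebra
    letI : Algebra L L' := ψ.toRingHom.toAlgebra
    letI : Algebra B L' := ((algebraMap L L').comp (algebraMap B L)).toAlgebra
    haveI : IsScalarTower B L L' := IsScalarTower.of_algebraMap_eq fun _ => rfl
    haveI : IsScalarTower B B' L' := IsScalarTower.of_algebraMap_eq fun r => h r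
    haveI : Algebra.IsIntegral B B' := ⟨fun x => by
      obtain ⟨y, rfl⟩ := φ.surjective x
      exact isIntegral_algebraMap (x := y)⟩
    haveI : Module.IsTorsionFree B B' := by
      rw [Module.isTorsionFree_iff_algebraMap_injective]
      exact φ.injective
    refine ⟨w.under B, fun b => Iff.rfl, fun z => ?_⟩
    exact ⟨_, val_under (A := B) (K := L) (B := B') (L := L') w z⟩
  exact key B L φ ψ h w

/-- The valuation of a norm. -/
theorem pw_norm [Module.Finite A B] {D : K} {s : L} (h : IsKN 2 D s) (v : HeightOneSpectrum A)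
    (hD : (∃ d : A, algebraMap A K d = D ∧ d ∉ v.asIdeal ∧ IsUnit ((2 : ℕ) : A)) ∨
      v.valuation K D = exp (-1 : ℤ)) {z : L} (hz : z ≠ 0)
    (hev : ∀ w : HeightOneSpectrum B, w.under A = v → IsPw 2 (w.valuation L z)) :
    IsPw 2 (v.valuation K (Algebra.norm K z)) := by
  haveI : Algebra.IsIntegral A B := Algebra.IsIntegral.of_finite A B
  obtain ⟨w, hw⟩ := exists_above (B := B) v
  rcases hD with ⟨d, rfl, hd, h2⟩ | hD
  · -- no ramification
    obtain ⟨γ, hγ, hγ2, hno, -⟩ := gen_two h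
    haveI : IsIntegralClosure B A L := IsIntegralClosure.of_isIntegrallyClosed _ _ _
    obtain ⟨φ, hφ⟩ := exists_aut (O := A) B (γ : L ≃+* L) (fun a => by
      show γ (algebraMap A L a) = algebraMap A L a
      rw [IsScalarTower.algebraMap_apply A K L, γ.commutes])
    have hφA : ∀ a : A, φ (algebraMap A B a) = algebraMap A B a := by
      intro a
      apply IsFractionRing.injective B L
      rw [← hφ]
      show γ (algebraMap B L (algebraMap A B a)) = algebraMap B L (algebraMap A B a)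
      rw [← IsScalarTower.algebraMap_apply A B L, IsScalarTower.algebraMap_apply A K L, γ.commutes]
    obtain ⟨w', hw'1, hw'2⟩ := val_aut φ (γ : L ≃+* L) hφ w
    obtain ⟨e, he⟩ := hw'2 z
    have hw'v : w'.under A = v := by
      rw [← hw]
      apply HeightOneSpectrum.ext
      ext a
      show algebraMap A B a ∈ w'.asIdeal ↔ algebraMap A B a ∈ w.asIdeal
      rw [hw'1, hφA]
    have h1 : w.valuation L (algebraMap K L (Algebra.norm K z)) =
        v.valuation K (Algebra.norm K z) := by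
      rw [val_under (A := A), ram_one one_lt_two h h2 w (by rw [hw]; exact hd), pow_one, hw]
    rw [← h1, hno, map_mul]
    have h3 : w.valuation L (γ z) = w'.valuation L z ^ e := he
    rw [h3]
    exact (hev w hw).mul ((hev w' hw'v).pow e)
  · -- ramification
    obtain ⟨c, hc, hap⟩ := norm_res (A := A) h w (by rw [hw]; exact hD) hz (hev w hw)
    rw [hw] at hap
    exact ⟨v.valuation K c, by rw [← hap.val, map_pow]⟩

end ring

end Pool.Agent.H89.GT
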