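import Pool.Agent.H89.GT.Core

/-!
# The norms of the classes over the biquadratic extension
-/

set_option autoImplicit false
set_option linter.all false

open Polynomial IsDedekindDomain WithZero
open scoped Classical

namespace Pool.Agent.H89.GT

open Pool.Agent.H89.GB
open Pool.Agent.H89.GM
open Pool.Agent.H89.KT (root_of norm_gal norm_pw pw_hom)
open Pool.Agent.Y160.SE (IsPw)
open Pool.Agent.Q45.TT (val_under ram_ne_zero exists_above sum_ef tf_of)

/-- The polynomials `Q' j` are independent modulo the places of the polynomials `Q i`: if the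
product of the `Q' j ^ a j` is a square modulo `τ` and `Q i` for all `i`, then the `a j` are
congruent modulo `2`. -/
def Cross {O : Type} [CommRing O] (τ : O) {r : ℕ} (Q : Fin (r + 1) → O[X]) {r' : ℕ}
    (Q' : Fin (r' + 1) → O[X]) (A : Type) [CommRing A] [Algebra O A] : Prop :=
  ∀ a : Fin (r' + 1) → ℕ,
    (∀ i, ∃ y : AdjoinRoot ((Q i).map (red τ A)),
      AdjoinRoot.mk ((Q i).map (red τ A)) ((∏ j, Q' j ^ a j).map (red τ A)) = y ^ 2) →
    ∀ j k, a j ≡ a k [MOD 2]

/-- A product with congruent exponents. -/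
theorem prod_const {F : Type} [Field F] {r : ℕ} (g : Fin (r + 1) → F) (hg0 : ∀ i, g i ≠ 0)
    (a : Fin (r + 1) → ℕ) (ha : ∀ i j, a i ≡ a j [MOD 2]) :
    ∃ y : F, y ≠ 0 ∧ ∏ i, g i ^ a i = (∏ i, g i) ^ a 0 * y ^ 2 := by
  have hex : ∀ i, ∃ t : ℤ, (a i : ℤ) = a 0 + (2 : ℕ) * t := by
    intro i
    have h1 : (a 0 : ℤ) ≡ a i [ZMOD (2 : ℕ)] := (Int.natCast_modEq_iff.2 (ha 0 i))
    obtain ⟨t, ht⟩ := h1.dvd
    exact ⟨t, by linarith⟩
  choose t ht using hex
  refine ⟨∏ i, g i ^ t i, ?_, ?_⟩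
  · rw [Finset.prod_ne_zero_iff]
    exact fun i _ => zpow_ne_zero _ (hg0 i)
  · rw [← Finset.prod_pow, ← Finset.prod_pow, ← Finset.prod_mul_distrib]
    refine Finset.prod_congr rfl fun i _ => ?_
    rw [← zpow_natCast (g i) (a i), ht i, zpow_add₀ (hg0 i), zpow_natCast, mul_comm ((2 : ℕ) : ℤ),
      zpow_mul, zpow_natCast]

section pl

/-- The places over a marked prime. -/
structure Pl {O : Type} [CommRing O] (τ : O) {r : ℕ} (Q : Fin (r + 1) → O[X]) (A R L : Type)
    [CommRing A] [IsDedekindDomain A] [CommRing R] [IsDedekindDomain R] [Field L] [Algebra O A]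
    [Algebra O R] [Algebra O L] [Algebra A R] [Module.Finite A R] [Module.IsTorsionFree A R]
    [Algebra R L] [IsFractionRing R L]
    (θ : R) (q : Fin (r + 1) → HeightOneSpectrum R) : Prop where
  v1 : ∀ i j, (q i).valuation L (algebraMap R L (aeval θ (Q j))) =
    if j = i then exp (-1 : ℤ) else 1
  v2 : ∀ i, (q i).valuation L (algebraMap O L τ) = exp (-1 : ℤ)
  v3 : ∀ w : HeightOneSpectrum R, algebraMap O R τ ∈ w.asIdeal → ∃ i, w = q i
  v4 : ∀ w : HeightOneSpectrum R, algebraMap O R τ ∉ w.asIdeal →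
    ∀ i, w.valuation L (algebraMap R L (aeval θ (Q i))) = 1
  v5 : ∀ i, (q i).asIdeal.inertiaDeg A = (Q i).natDegree
  v6 : ∀ i, ((q i).under A).asIdeal = Ideal.span {algebraMap O A τ}

end pl

section step

variable {O : Type} [CommRing O] [IsDedekindDomain O] {f : O[X]} {τ τ' : O} {r r' : ℕ}
  {Q : Fin (r + 1) → O[X]} {Q' : Fin (r' + 1) → O[X]}
  {K0 L0 A0 R0 : Type} [Field K0] [Field L0] [Algebra O K0] [Algebra O L0]
  [Algebra K0 L0] [IsScalarTower O K0 L0] [CommRing A0] [IsDedekindDomain A0] [CommRing R0]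
  [IsDedekindDomain R0] [Algebra O A0] [Algebra O R0] [Algebra A0 K0] [Algebra R0 L0]
  [IsScalarTower O A0 K0] [IsScalarTower O R0 L0] [IsFractionRing A0 K0] [IsFractionRing R0 L0]
  [IsIntegralClosure R0 O L0] [Algebra A0 R0] [IsScalarTower O A0 R0] [Module.Finite A0 R0]
  [Module.IsTorsionFree A0 R0]

theorem Pl.g_ne {θ : R0} {q : Fin (r + 1) → HeightOneSpectrum R0} (P : Pl τ Q A0 R0 L0 θ q)
    (i : Fin (r + 1)) : algebraMap R0 L0 (aeval θ (Q i)) ≠ 0 := by
  intro h0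
  have h1 := P.v1 i i
  rw [h0, map_zero, if_pos rfl] at h1
  exact exp_ne_zero h1.symm

theorem Pl.mem_self {θ : R0} {q : Fin (r + 1) → HeightOneSpectrum R0} (P : Pl τ Q A0 R0 L0 θ q)
    (i : Fin (r + 1)) : aeval θ (Q i) ∈ (q i).asIdeal := by
  rw [← val_lt (L0 := L0), P.v1, if_pos rfl, ← exp_zero, exp_lt_exp]
  norm_num

theorem Pl.tau_mem {θ : R0} {q : Fin (r + 1) → HeightOneSpectrum R0} (P : Pl τ Q A0 R0 L0 θ q)
    (i : Fin (r + 1)) : algebraMap O R0 τ ∈ (q i).asIdeal := by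
  rw [← val_lt (L0 := L0), ← IsScalarTower.algebraMap_apply, P.v2, ← exp_zero, exp_lt_exp]
  norm_num

/-- Places of coprime elements. -/
theorem not_mem_of_cop (hcop : IsCoprime (algebraMap O A0 τ) (algebraMap O A0 τ'))
    (w : HeightOneSpectrum R0) (hw : algebraMap O R0 τ ∈ w.asIdeal) :
    algebraMap O R0 τ' ∉ w.asIdeal := by
  intro h
  obtain ⟨a, b, hab⟩ := hcop
  have h1 := congrArg (algebraMap A0 R0) hab
  rw [map_add, map_mul, map_mul, map_one, ← IsScalarTower.algebraMap_apply,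
    ← IsScalarTower.algebraMap_apply] at h1
  refine w.isPrime.ne_top ((Ideal.eq_top_iff_one _).2 ?_)
  rw [← h1]
  exact w.asIdeal.add_mem (Ideal.mul_mem_left _ _ hw) (Ideal.mul_mem_left _ _ h)

/-- The square root modulo the place. -/
theorem Pl.sq {θ : R0} {q : Fin (r + 1) → HeightOneSpectrum R0} (P : Pl τ Q A0 R0 L0 θ q)
    {ρ : A0} (hρ : algebraMap O A0 τ' - ρ ^ 2 ∈ Ideal.span {algebraMap O A0 τ}) (i : Fin (r + 1)) :
    algebraMap O R0 τ' - algebraMap A0 R0 ρ ^ 2 ∈ (q i).asIdeal := by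
  rw [← P.v6 i] at hρ
  have h1 : algebraMap A0 R0 (algebraMap O A0 τ' - ρ ^ 2) ∈ (q i).asIdeal := hρ
  rwa [map_sub, map_pow, ← IsScalarTower.algebraMap_apply] at h1

/-- The exponents, from the residue relations. -/
theorem Pl.exps (hf : Pol 2 f) {θ : R0} {q : Fin (r + 1) → HeightOneSpectrum R0}
    (P : Pl τ Q A0 R0 L0 θ q) (hM : Marked f τ Q A0) (hcr : Cross τ Q Q' A0)
    (a : Fin (r' + 1) → ℕ)
    (h : ∀ i, ∃ β : R0, aeval θ (∏ j, Q' j ^ a j) - β ^ 2 ∈ (q i).asIdeal) :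
    ∀ j k, a j ≡ a k [MOD 2] := by
  refine hcr a fun i => ?_
  obtain ⟨β, hβ⟩ := h i
  exact res_pow (A := A0) (q i) (P.mem_self (L0 := L0) i) (hM.monic i) (P.v6 i) (hM.irr i) (P.v5 i) _ β hβ

variable {F LF RF : Type} [Field F] [Field LF] [Algebra O F] [Algebra O LF] [Algebra K0 F]
  [IsScalarTower O K0 F] [Algebra F LF] [IsScalarTower O F LF] [Algebra L0 LF]
  [IsScalarTower O L0 LF] [Algebra K0 LF] [IsScalarTower K0 F LF] [IsScalarTower K0 L0 LF]
  [CommRing RF] [IsDedekindDomain RF] [Algebra O RF] [Algebra RF LF] [IsScalarTower O RF LF]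
  [IsFractionRing RF LF] [IsIntegralClosure RF O LF] [Algebra R0 RF] [IsScalarTower O R0 RF]
  [Module.Finite R0 RF] [Module.IsTorsionFree R0 RF] [Algebra R0 LF] [IsScalarTower R0 L0 LF]
  [IsScalarTower R0 RF LF]

/-- **The norm of a class from the first quadratic extension.** -/
theorem step_two (H : Base 2 O) (hf : Pol 2 f) (htriv : Triv 2 f K0) {t : F}
    (hq₀ : IsKN 2 (algebraMap O K0 τ') t) (hqL₀ : IsKN 2 (algebraMap O L0 τ') (algebraMap F LF t))
    {θ : R0} (hθ : aeval (algebraMap R0 L0 θ) (fK f K0) = 0)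
    (htop : IntermediateField.adjoin K0 {algebraMap R0 L0 θ} = ⊤)
    (hirr : Irreducible (fK f K0)) (hsep : (fK f K0).Separable)
    (hcomp : ∀ a : A0, algebraMap K0 L0 (algebraMap A0 K0 a) = algebraMap R0 L0 (algebraMap A0 R0 a))
    (hM : Marked f τ Q A0) (hM' : Marked f τ' Q' A0)
    (hcop : IsCoprime (algebraMap O A0 τ) (algebraMap O A0 τ')) (hcr : Cross τ' Q' Q A0)
    {q : Fin (r + 1) → HeightOneSpectrum R0} (P : Pl τ Q A0 R0 L0 θ q)
    {q' : Fin (r' + 1) → HeightOneSpectrum R0} (P' : Pl τ' Q' A0 R0 L0 θ q') {z : LF} (hz : z ≠ 0)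
    (hev : ∀ w : HeightOneSpectrum RF, algebraMap O RF τ ∉ w.asIdeal → IsPw 2 (w.valuation LF z))
    {c : F} (hc : Algebra.norm F z = c ^ 2) :
    ∃ y : L0, y ≠ 0 ∧ Algebra.norm L0 z = y ^ 2 := by
  haveI := hq₀.fin
  haveI := hqL₀.fin
  haveI : Algebra.IsIntegral R0 RF := Algebra.IsIntegral.of_finite R0 RF
  have hm := fK_monic hf K0
  haveI : FiniteDimensional K0 L0 := Pool.Agent.Q45.TW.fin_of hm hθ htop
  haveI : FiniteDimensional K0 LF := Module.Finite.trans L0 LF
  haveI : FiniteDimensional F LF := Module.Finite.of_restrictScalars_finite K0 F LF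
  have h2R : IsUnit ((2 : ℕ) : R0) := by
    have h1 := H.unit.map (algebraMap O R0)
    rwa [map_natCast] at h1
  have hn0 : Algebra.norm L0 z ≠ 0 := (Algebra.norm_ne_zero_iff).2 hz
  have hno : Algebra.norm K0 (Algebra.norm L0 z) = (Algebra.norm K0 c) ^ 2 := by
    rw [Algebra.norm_norm, ← map_pow, ← hc, Algebra.norm_norm]
  have hunder : ∀ (w : HeightOneSpectrum RF) (a : O),
      algebraMap O RF a ∈ w.asIdeal ↔ algebraMap O R0 a ∈ (w.under R0).asIdeal := by
    intro w a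
    rw [IsScalarTower.algebraMap_apply O R0 RF]
    exact Iff.rfl
  have heven : ∀ v : HeightOneSpectrum R0, algebraMap O R0 τ ∉ v.asIdeal →
      IsPw 2 (v.valuation L0 (Algebra.norm L0 z)) := by
    intro v hv
    refine pw_norm (A := R0) (B := RF) hqL₀ v ?_ hz fun w hw => hev w ?_
    · by_cases h : algebraMap O R0 τ' ∈ v.asIdeal
      · obtain ⟨j, rfl⟩ := P'.v3 v h
        exact Or.inr (P'.v2 j)
      · exact Or.inl ⟨algebraMap O R0 τ', (IsScalarTower.algebraMap_apply O R0 L0 _).symm, h, h2R⟩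
    · rw [hunder, hw]
      exact hv
  obtain ⟨b, y, hy0, hy⟩ := base_pt Nat.prime_two hf htriv hθ htop hirr hsep hcomp hM P.v1 P.v3 P.v4
    hn0 hno heven
  -- the residues at the places of the other marked prime
  have hU : ∀ b : Fin (r + 1) → ℕ, algebraMap R0 L0 (aeval θ (∏ i, Q i ^ b i)) =
      ∏ i, algebraMap R0 L0 (aeval θ (Q i)) ^ b i := by
    intro b
    rw [map_prod, map_prod]
    exact Finset.prod_congr rfl fun i _ => by rw [map_pow, map_pow]
  have hb := P'.exps hf hM' hcr b fun j => by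
    have hτj : algebraMap O R0 τ ∉ (q' j).asIdeal := fun h =>
      not_mem_of_cop (A0 := A0) hcop (q' j) h (P'.tau_mem j)
    refine cross_core2 (RF := RF) hqL₀ (q' j) (P'.v2 j) hz (fun w hw => hev w ?_) ?_ hy0 ?_
    · rw [hunder, hw]
      exact hτj
    · rw [← val_lt (L0 := L0), hU, map_prod, Finset.prod_eq_one]
      · exact lt_irrefl _
      · intro i _
        rw [map_pow, P.v4 _ hτj i, one_pow]
    · rw [hU]
      exact hy
  obtain ⟨y', hy'0, hy'⟩ := prod_const (fun i => algebraMap R0 L0 (aeval θ (Q i)))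
    (fun i => P.g_ne i) b hb
  have hprod : ∏ i, algebraMap R0 L0 (aeval θ (Q i)) = -algebraMap O L0 τ := by
    rw [← map_prod, ← map_prod, hM.prod, map_sub, aeval_C, map_sub, ← aeval_algebraMap_apply]
    have h1 := hθ
    unfold fK at h1
    rw [aeval_map_algebraMap] at h1
    rw [h1, zero_sub, ← IsScalarTower.algebraMap_apply O R0 L0]
  rw [hprod] at hy'
  rw [hy'] at hy
  -- the exponent is even
  have hτ0 : algebraMap O K0 τ ≠ 0 := by
    rw [IsScalarTower.algebraMap_apply O A0 K0]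
    exact fun h => hM.prime.ne_zero (IsFractionRing.injective A0 K0 (by rw [h, map_zero]))
  have hfin : Module.finrank K0 L0 = f.natDegree := by
    rw [Pool.Agent.Q45.TW.finrank_of hirr hm hθ htop, fK_natDegree hf]
  have hNc : Algebra.norm K0 c ≠ 0 := by
    intro h
    rw [h, zero_pow two_ne_zero] at hno
    exact (Algebra.norm_ne_zero_iff).2 hn0 hno
  have hy2 : Algebra.norm K0 (y' * y) ≠ 0 := (Algebra.norm_ne_zero_iff).2 (mul_ne_zero hy'0 hy0)
  have hN : (-algebraMap O K0 τ) ^ (b 0 * f.natDegree) * (Algebra.norm K0 (y' * y)) ^ 2 =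
      (Algebra.norm K0 c) ^ 2 := by
    rw [← hno, hy]
    have h1 : (-algebraMap O L0 τ) ^ b 0 * y' ^ 2 * y ^ 2 =
        algebraMap K0 L0 ((-algebraMap O K0 τ) ^ b 0) * (y' * y) ^ 2 := by
      rw [map_pow (algebraMap K0 L0), map_neg, ← IsScalarTower.algebraMap_apply O K0 L0]
      ring
    rw [h1]
    conv_rhs => rw [map_mul, Algebra.norm_algebraMap, hfin, ← pow_mul, map_pow]
  have heb : 2 ∣ b 0 := by
    have hcI : Ideal.span {algebraMap O A0 τ} ≠ ⊥ :=
      fun h => hM.prime.ne_zero (Ideal.span_singleton_eq_bot.1 h)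
    let v : HeightOneSpectrum A0 := ⟨Ideal.span {algebraMap O A0 τ},
      (Ideal.span_singleton_prime hM.prime.ne_zero).2 hM.prime, hcI⟩
    have hv : v.valuation K0 (algebraMap O K0 τ) = exp (-1 : ℤ) := by
      rw [IsScalarTower.algebraMap_apply O A0 K0, v.valuation_of_algebraMap]
      exact v.intValuation_singleton hM.prime.ne_zero rfl
    have h1 := congrArg (v.valuation K0) hN
    rw [map_mul, map_pow, Valuation.map_neg, hv, map_pow, map_pow] at h1
    have h3 : IsPw 2 (exp (-1 : ℤ) ^ (b 0 * f.natDegree)) := by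
      refine IsPw.of_mul (δ := v.valuation K0 (Algebra.norm K0 (y' * y)))
        ((Valuation.ne_zero_iff _).2 hy2) ?_
      rw [h1]
      exact ⟨_, rfl⟩
    have h4 : 2 ∣ b 0 * f.natDegree := dvd_exp two_ne_zero h3
    exact hf.cop.dvd_of_dvd_mul_right h4
  obtain ⟨k, hk⟩ := heb
  refine ⟨(-algebraMap O L0 τ) ^ k * (y' * y), ?_, ?_⟩
  · refine mul_ne_zero (pow_ne_zero _ (neg_ne_zero.2 ?_)) (mul_ne_zero hy'0 hy0)
    rw [IsScalarTower.algebraMap_apply O K0 L0]
    exact (_root_.map_ne_zero _).2 hτ0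
  · rw [hy, hk]
    ring

end step

end Pool.Agent.H89.GT
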